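import Mathlib

/-!
# Upper bounds for absolute values of determinants
-/

namespace Pool.Agent.H.MP_0e6b5f_nt.Dom

variable {K : Type*} [Field K]

theorem term_le (v : AbsoluteValue K ℝ) {n : ℕ} (M : Matrix (Fin n) (Fin n) K) (b : Fin n → ℝ)
    (hb : ∀ k P, v (M k P) ≤ b k) (σ : Equiv.Perm (Fin n)) :
    v (((Equiv.Perm.sign σ : ℤˣ) : ℤ) * ∏ i, M (σ i) i) ≤ ∏ k, b k := by
  have h1 : v ((((Equiv.Perm.sign σ : ℤˣ) : ℤ) : K)) = 1 := by
    rcases Int.units_eq_one_or (Equiv.Perm.sign σ) with h | h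
    · rw [h]; simp
    · rw [h]; simp
  rw [v.map_mul, h1, one_mul, map_prod, ← Equiv.prod_comp σ b]
  exact Finset.prod_le_prod (fun _ _ => v.nonneg _) (fun i _ => hb _ _)

theorem det_le_arch (v : AbsoluteValue K ℝ) {n : ℕ} (M : Matrix (Fin n) (Fin n) K) (b : Fin n → ℝ)
    (hb : ∀ k P, v (M k P) ≤ b k) : v M.det ≤ (n.factorial : ℝ) * ∏ k, b k := by
  rw [Matrix.det_apply']
  refine (v.sum_le _ _).trans ?_
  calc ∑ σ : Equiv.Perm (Fin n), v (((Equiv.Perm.sign σ : ℤˣ) : ℤ) * ∏ i, M (σ i) i)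
      ≤ ∑ _σ : Equiv.Perm (Fin n), ∏ k, b k := Finset.sum_le_sum (fun σ _ => term_le v M b hb σ)
    _ = (n.factorial : ℝ) * ∏ k, b k := by
        rw [Finset.sum_const, Finset.card_univ, Fintype.card_perm, Fintype.card_fin, nsmul_eq_mul]

theorem det_le_nonarch (v : AbsoluteValue K ℝ) (hv : IsNonarchimedean v) {n : ℕ}
    (M : Matrix (Fin n) (Fin n) K) (b : Fin n → ℝ)
    (hb : ∀ k P, v (M k P) ≤ b k) : v M.det ≤ ∏ k, b k := by
  rw [Matrix.det_apply']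
  obtain ⟨σ, -, h⟩ := IsNonarchimedean.finset_image_add_of_nonempty hv
    (fun σ : Equiv.Perm (Fin n) => (((Equiv.Perm.sign σ : ℤˣ) : ℤ) : K) * ∏ i, M (σ i) i)
    Finset.univ_nonempty
  exact h.trans (term_le v M b hb σ)

end Pool.Agent.H.MP_0e6b5f_nt.Dom
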