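import Mathlib

/-!
# Local estimates: sizes of bounded orbits and the covering argument
-/

namespace Pool.Agent.H.MP_0e6b5f_nt.Dom

open Polynomial

variable {K : Type*} [Field K]

/-- `v` is quasi-ultrametric with constant `A`. -/
def QU (v : AbsoluteValue K ℝ) (A : ℝ) : Prop := ∀ x y, v (x + y) ≤ A * max (v x) (v y)

theorem QU.sub {v : AbsoluteValue K ℝ} {A : ℝ} (h : QU v A) (x y : K) :
    v (x - y) ≤ A * max (v x) (v y) := by
  have := h x (-y)
  rwa [v.map_neg, ← sub_eq_add_neg] at this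

theorem QU.of_two (v : AbsoluteValue K ℝ) : QU v 2 := by
  intro x y
  have := v.add_le x y
  rcases le_total (v x) (v y) with h | h
  · rw [max_eq_right h]; linarith
  · rw [max_eq_left h]; linarith

theorem QU.of_nonarch {v : AbsoluteValue K ℝ} (h : IsNonarchimedean v) : QU v 1 := by
  intro x y
  rw [one_mul]
  exact h x y

theorem QU.sum_le {v : AbsoluteValue K ℝ} {A : ℝ} (h : QU v A) (hA : 1 ≤ A) {ι : Type*}
    (s : Finset ι) (f : ι → K) {b : ℝ} (hb : 0 ≤ b) (hf : ∀ i ∈ s, v (f i) ≤ b) :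
    v (∑ i ∈ s, f i) ≤ A ^ s.card * b := by
  classical
  induction s using Finset.induction_on with
  | empty => simpa using hb
  | insert a s ha ih =>
    rw [Finset.sum_insert ha, Finset.card_insert_of_notMem ha]
    have h1 := ih (fun i hi => hf i (Finset.mem_insert_of_mem hi))
    have h2 := hf a (Finset.mem_insert_self _ _)
    have h3 : (1 : ℝ) ≤ A ^ s.card := one_le_pow₀ hA
    calc v (f a + ∑ i ∈ s, f i) ≤ A * max (v (f a)) (v (∑ i ∈ s, f i)) := h _ _
      _ ≤ A * (A ^ s.card * b) := by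
          apply mul_le_mul_of_nonneg_left _ (by linarith)
          refine max_le (h2.trans ?_) h1
          nlinarith
      _ = A ^ (s.card + 1) * b := by ring

/-- Divided differences: among `d + 1` points one has a small product of distances. -/
theorem exists_small_prod {v : AbsoluteValue K ℝ} {A : ℝ} (h : QU v A) (hA : 1 ≤ A) {F : K[X]}
    {d : ℕ} (hF : F.Monic) (hFd : F.natDegree = d) [DecidableEq K] (s : Finset K)
    (hs : s.card = d + 1) :
    ∃ z ∈ s, ∏ z' ∈ s.erase z, v (z - z') ≤ A ^ (d + 1) * v (F.eval z) := by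
  have hne : s.Nonempty := by rw [← Finset.card_pos]; omega
  obtain ⟨z, hz, hmax⟩ := Finset.exists_max_image s
    (fun z => v (F.eval z / ∏ z' ∈ s.erase z, (z - z'))) hne
  refine ⟨z, hz, ?_⟩
  have h1 : F.leadingCoeff = ∑ i ∈ s, (F.eval (id i)) / ∏ j ∈ s.erase i, (id i - id j) := by
    apply Lagrange.leadingCoeff_eq_sum (Function.injective_id.injOn)
    rw [hs, degree_eq_natDegree hF.ne_zero, hFd]
    norm_cast
  rw [hF.leadingCoeff] at h1
  simp only [id] at h1
  have h2 := h.sum_le hA s (fun z => F.eval z / ∏ z' ∈ s.erase z, (z - z'))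
    (v.nonneg _) (fun i hi => hmax i hi)
  rw [← h1, v.map_one, hs, map_div₀, map_prod] at h2
  have hpos : 0 < ∏ z' ∈ s.erase z, v (z - z') := by
    apply Finset.prod_pos
    intro z' hz'
    exact v.pos (sub_ne_zero.mpr (Finset.ne_of_mem_erase hz').symm)
  rw [mul_div_assoc', le_div_iff₀ hpos, one_mul] at h2
  exact h2

/-- A product of `n` factors all larger than `c` has value larger than `c ^ n`, in the form of an
upper bound for one factor. -/
theorem exists_pow_le_of_prod_le {ι : Type*} (s : Finset ι) (f : ι → ℝ) (hne : s.Nonempty)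
    (hf : ∀ i ∈ s, 0 ≤ f i) {b : ℝ} (hb : ∏ i ∈ s, f i ≤ b) : ∃ i ∈ s, f i ^ s.card ≤ b := by
  obtain ⟨i, hi, hmin⟩ := Finset.exists_min_image s f hne
  refine ⟨i, hi, le_trans ?_ hb⟩
  rw [← Finset.prod_const]
  exact Finset.prod_le_prod (fun _ _ => hf i hi) (fun j hj => hmin j hj)

/-- Pigeonhole for coverings. -/
theorem pigeon {ι : Type*} [DecidableEq K] (T : Finset ι) (g : ι → K) (near : K → K → Prop)
    (hrefl : ∀ z, near z z) (hsymm : ∀ z z', near z z' → near z' z) (m : ℕ) (hT : T.Nonempty)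
    (hm : ∀ s : Finset K, s ⊆ T.image g → (∀ z ∈ s, ∀ z' ∈ s, z ≠ z' → ¬ near z z') →
      s.card ≤ m) :
    ∃ c ∈ T, ∃ T' ⊆ T, T.card ≤ m * T'.card ∧ ∀ P ∈ T', near (g P) (g c) := by
  classical
  set fam := (T.image g).powerset.filter
    (fun s => ∀ z ∈ s, ∀ z' ∈ s, z ≠ z' → ¬ near z z') with hfam
  have hfne : fam.Nonempty := ⟨∅, by simp [hfam]⟩
  obtain ⟨C, hC, hmax⟩ := Finset.exists_max_image fam Finset.card hfne
  simp only [hfam, Finset.mem_filter, Finset.mem_powerset] at hC
  have hcov : ∀ P ∈ T, ∃ c ∈ C, near (g P) c := by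
    intro P hP
    by_contra hcon
    push Not at hcon
    have hnot : g P ∉ C := fun h => hcon (g P) h (hrefl _)
    have h1 : insert (g P) C ∈ fam := by
      simp only [hfam, Finset.mem_filter, Finset.mem_powerset]
      refine ⟨Finset.insert_subset (Finset.mem_image_of_mem g hP) hC.1, ?_⟩
      intro z hz z' hz' hne
      rcases Finset.mem_insert.mp hz with h | h
      · rcases Finset.mem_insert.mp hz' with h' | h'
        · exact absurd (h.trans h'.symm) hne
        · rw [h]; exact hcon z' h'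
      · rcases Finset.mem_insert.mp hz' with h' | h'
        · rw [h']; exact fun h'' => hcon z h (hsymm _ _ h'')
        · exact hC.2 z h z' h' hne
    have h2 := hmax _ h1
    rw [Finset.card_insert_of_notMem hnot] at h2
    omega
  choose! φ hφC hφ using hcov
  have hCm : C.card ≤ m := hm C hC.1 hC.2
  have hsum : T.card = ∑ c ∈ C, (T.filter (fun P => φ P = c)).card :=
    Finset.card_eq_sum_card_fiberwise (fun P hP => hφC P hP)
  have hCne : C.Nonempty := by
    obtain ⟨P, hP⟩ := hT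
    exact ⟨φ P, hφC P hP⟩
  obtain ⟨c, hc, hcmax⟩ := Finset.exists_max_image C
    (fun c => (T.filter (fun P => φ P = c)).card) hCne
  obtain ⟨P₀, hP₀, hP₀c⟩ : ∃ P₀ ∈ T, g P₀ = c := by
    have := hC.1 hc
    rw [Finset.mem_image] at this
    exact this
  refine ⟨P₀, hP₀, T.filter (fun P => φ P = c), Finset.filter_subset _ _, ?_, ?_⟩
  · rw [hsum]
    calc ∑ c' ∈ C, (T.filter (fun P => φ P = c')).card
        ≤ ∑ _c' ∈ C, (T.filter (fun P => φ P = c)).card := Finset.sum_le_sum hcmax
      _ = C.card * (T.filter (fun P => φ P = c)).card := by rw [Finset.sum_const, smul_eq_mul]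
      _ ≤ m * (T.filter (fun P => φ P = c)).card := Nat.mul_le_mul_right _ hCm
  · intro P hP
    rw [Finset.mem_filter] at hP
    rw [hP₀c, ← hP.2]
    exact hφ P hP.1

/-- The polynomial of the normal form. -/
noncomputable def nf {d : ℕ} (ζ : Fin d → K) (δ : K) : K[X] :=
  C (1 + δ) * X + ∏ i, (X - C (ζ i))

theorem nf_monic {d : ℕ} (hd : 2 ≤ d) (ζ : Fin d → K) (δ : K) :
    (nf ζ δ).Monic ∧ (nf ζ δ).natDegree = d := by
  have h1 : (∏ i, (X - C (ζ i)) : K[X]).Monic := monic_prod_of_monic _ _ (fun i _ => monic_X_sub_C _)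
  have h2 : (∏ i, (X - C (ζ i)) : K[X]).natDegree = d := by
    rw [natDegree_prod_of_monic _ _ (fun i _ => monic_X_sub_C _)]
    simp
  have h3 : (C (1 + δ) * X : K[X]).natDegree < (∏ i, (X - C (ζ i)) : K[X]).natDegree := by
    rw [h2]
    refine lt_of_le_of_lt natDegree_mul_le ?_
    rw [natDegree_C, natDegree_X]
    omega
  have h4 : (C (1 + δ) * X : K[X]).degree < (∏ i, (X - C (ζ i)) : K[X]).degree :=
    degree_lt_degree h3
  constructor
  · exact h1.add_of_right h4
  · rw [nf, natDegree_add_eq_right_of_natDegree_lt h3, h2]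

theorem nf_eval {d : ℕ} (ζ : Fin d → K) (δ z : K) :
    (nf ζ δ).eval z = (1 + δ) * z + ∏ i, (z - ζ i) := by
  simp [nf, eval_prod]

/-- A finite set with an invertible self-map, modelling a finite invariant set of a Henon map: the
second coordinate of a point is `y`, the first one is `y ∘ σ⁻¹`. -/
structure Orb {d : ℕ} (ζ : Fin d → K) (δ : K) (ι : Type*) where
  /-- The map on the finite set. -/
  σ : Equiv.Perm ι
  /-- The second coordinate. -/
  y : ι → K
  rel : ∀ P, y (σ P) + δ * y (σ⁻¹ P) = (nf ζ δ).eval (y P)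

/-- Size of the orbit points. -/
theorem Orb.size {d : ℕ} (hd : 2 ≤ d) {ζ : Fin d → K} {δ : K} {ι : Type*} [Finite ι]
    (O : Orb ζ δ ι) {v : AbsoluteValue K ℝ} {A : ℝ} (h : QU v A) (hA : 1 ≤ A) {B : ℝ}
    (hB : 1 ≤ B) (hζ : ∀ i, v (ζ i) ≤ B) (hδ : v δ ≤ B) (P : ι) :
    v (O.y P) ≤ A ^ (d + 3) * B := by
  have hAB : A * B ≤ A ^ (d + 3) * B := by
    apply mul_le_mul_of_nonneg_right _ (by linarith)
    calc A = A ^ 1 := (pow_one A).symm
      _ ≤ A ^ (d + 3) := pow_le_pow_right₀ hA (by omega)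
  have : Nonempty ι := ⟨P⟩
  obtain ⟨Q, hQ⟩ := Finite.exists_max (fun P => v (O.y P))
  refine (hQ P).trans ?_
  set M := v (O.y Q) with hM
  by_contra hcon
  push Not at hcon
  have hMAB : A * B < M := lt_of_le_of_lt hAB hcon
  have hA0 : 0 < A := by linarith
  have hM1 : 1 < M := by nlinarith
  have hz : ∀ i, M / A ≤ v (O.y Q - ζ i) := by
    intro i
    have h1 := h (O.y Q - ζ i) (ζ i)
    rw [sub_add_cancel, ← hM] at h1
    rw [div_le_iff₀ hA0, mul_comm]
    rcases le_total (v (ζ i)) (v (O.y Q - ζ i)) with h2 | h2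
    · rwa [max_eq_left h2] at h1
    · rw [max_eq_right h2] at h1
      have := hζ i
      nlinarith
  have hprod : (M / A) ^ d ≤ v (∏ i, (O.y Q - ζ i)) := by
    rw [map_prod]
    calc (M / A) ^ d = ∏ _i : Fin d, (M / A) := by
          rw [Finset.prod_const, Finset.card_univ, Fintype.card_fin]
      _ ≤ ∏ i, v (O.y Q - ζ i) :=
        Finset.prod_le_prod (fun _ _ => by positivity) (fun i _ => hz i)
  have hrel := O.rel Q
  rw [nf_eval] at hrel
  have h3 : ∏ i, (O.y Q - ζ i) = O.y (O.σ Q) + (δ * O.y (O.σ⁻¹ Q) - (1 + δ) * O.y Q) := by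
    linear_combination -hrel
  have h4 : v (1 + δ) ≤ A * B := by
    refine (h 1 δ).trans ?_
    rw [v.map_one]
    exact mul_le_mul_of_nonneg_left (max_le hB hδ) hA0.le
  have h5 : v (δ * O.y (O.σ⁻¹ Q) - (1 + δ) * O.y Q) ≤ A * (A * B * M) := by
    refine (h.sub _ _).trans (mul_le_mul_of_nonneg_left (max_le ?_ ?_) hA0.le)
    · rw [v.map_mul]
      calc v δ * v (O.y (O.σ⁻¹ Q)) ≤ B * M :=
            mul_le_mul hδ (hQ _) (v.nonneg _) (by linarith)
        _ ≤ A * B * M := by nlinarith [mul_nonneg (by linarith : (0 : ℝ) ≤ B) (by linarith : (0:ℝ) ≤ M)]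
    · rw [v.map_mul]
      exact mul_le_mul_of_nonneg_right h4 (v.nonneg _)
  have h6 : v (∏ i, (O.y Q - ζ i)) ≤ A * (A * (A * B * M)) := by
    rw [h3]
    refine (h _ _).trans (mul_le_mul_of_nonneg_left (max_le ?_ h5) hA0.le)
    refine (hQ _).trans ?_
    have hBM : M ≤ B * M := by nlinarith
    have h7 : B * M ≤ A * (A * B * M) := by
      have h8 : 1 ≤ A * A := by nlinarith
      have h9 : 0 ≤ B * M := by positivity
      nlinarith
    exact hBM.trans h7
  have h7 : M ^ d ≤ A ^ (d + 3) * B * M := by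
    have h8 := hprod.trans h6
    rw [div_pow, div_le_iff₀ (by positivity)] at h8
    calc M ^ d ≤ A * (A * (A * B * M)) * A ^ d := h8
      _ = A ^ (d + 3) * B * M := by ring
  have h8 : M ^ (d - 1) ≤ A ^ (d + 3) * B := by
    have h9 : M ^ d = M ^ (d - 1) * M := by
      rw [← pow_succ, Nat.sub_add_cancel (by omega)]
    rw [h9] at h7
    exact le_of_mul_le_mul_right h7 (by linarith)
  have h9 : M ≤ M ^ (d - 1) := by
    calc M = M ^ 1 := (pow_one M).symm
      _ ≤ M ^ (d - 1) := pow_le_pow_right₀ hM1.le (by omega)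
  linarith

end Pool.Agent.H.MP_0e6b5f_nt.Dom
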