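import Pool.Agent.H.MP_0e6b5f_nt.Dom.Enum
import Pool.Agent.H.MP_0e6b5f_nt.Dom.Local
import Pool.Agent.H.MP_0e6b5f_nt.Dom.Det

/-!
# The interpolation determinant of a set of orbit points and its local bounds
-/

namespace Pool.Agent.H.MP_0e6b5f_nt.Dom

open Polynomial

variable {K : Type*} [Field K]

theorem aeval_pi_apply {n : ℕ} (f : Fin n → K) (F : K[X]) (j : Fin n) :
    (aeval f F) j = F.eval (f j) := by
  have h := aeval_algHom_apply (Pi.evalAlgHom K (fun _ : Fin n => K) j) f F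
  have h2 : (Pi.evalAlgHom K (fun _ : Fin n => K) j) f = f j := rfl
  rw [h2] at h
  have h3 : (Pi.evalAlgHom K (fun _ : Fin n => K) j) (aeval f F) = (aeval f F) j := rfl
  rw [h3] at h
  rw [← h, coe_aeval_eq_eval]

theorem dynP_apply_le {n d L : ℕ} (hd : 1 ≤ d) (u : ℕ → (Fin n → K)) (v : AbsoluteValue K ℝ)
    {M : ℝ} (hM : 1 ≤ M) (hu : ∀ k j, v (u k j) ≤ M) (i : ℕ) (j : Fin n) :
    v (dynP d u L i j) ≤ M ^ ((d - 1) * L) := by
  rw [dynP, Finset.prod_apply, map_prod]
  calc ∏ k ∈ Finset.range L, v ((u k ^ (i / d ^ k % d)) j)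
      ≤ ∏ _k ∈ Finset.range L, M ^ (d - 1) := by
        refine Finset.prod_le_prod (fun _ _ => v.nonneg _) (fun k _ => ?_)
        rw [Pi.pow_apply, v.map_pow]
        calc v (u k j) ^ (i / d ^ k % d) ≤ M ^ (i / d ^ k % d) :=
              pow_le_pow_left₀ (v.nonneg _) (hu k j) _
          _ ≤ M ^ (d - 1) := by
              apply pow_le_pow_right₀ hM
              have := Nat.mod_lt (i / d ^ k) (by omega : d > 0)
              omega
    _ = M ^ ((d - 1) * L) := by rw [Finset.prod_const, Finset.card_range, ← pow_mul]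

/-- The interpolation determinant attached to a finite set of orbit points. -/
theorem det_main {d : ℕ} (hd : 2 ≤ d) {ζ : Fin d → K} {δ : K} (hδ : δ ≠ 0) {ι : Type*}
    (O : Orb ζ δ ι) (hinj : ∀ P Q, O.y P = O.y Q → O.y (O.σ⁻¹ P) = O.y (O.σ⁻¹ Q) → P = Q)
    (T : Finset ι) (L : ℕ) (hL : T.card ≤ d ^ L) :
    ∃ (g : K) (E E' : ℕ), g ≠ 0 ∧ (d - 1) * E' ≤ E ∧ (∀ q, (T.card - tri q) * q ≤ E) ∧
      (∀ (v : AbsoluteValue K ℝ) (M c : ℝ), 1 ≤ M → (∀ P, v (O.y P) ≤ M) →
        (c = (T.card.factorial : ℝ) ∨ (IsNonarchimedean v ∧ c = 1)) →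
        v g ≤ c * (v δ ^ E' * M ^ (2 * (d - 1) * L * T.card))) ∧
      (∀ (v : AbsoluteValue K ℝ) (ρ c : ℝ), 0 ≤ ρ →
        (∀ P ∈ T, ∀ Q ∈ T, v (O.y P - O.y Q) ≤ ρ ∧ v (O.y (O.σ⁻¹ P) - O.y (O.σ⁻¹ Q)) ≤ ρ) →
        (c = (T.card.factorial : ℝ) ∨ (IsNonarchimedean v ∧ c = 1)) → v g ≤ c * ρ ^ E) := by
  classical
  set n := T.card with hn
  set ε : Fin n ≃ T := (T.equivFin).symm with hε
  set X : Fin n → K := fun j => O.y (O.σ⁻¹ (ε j)) with hX
  set Y : Fin n → K := fun j => O.y (ε j) with hY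
  have hXY : ∀ P Q, P ≠ Q → X P ≠ X Q ∨ Y P ≠ Y Q := by
    intro P Q hPQ
    by_contra hcon
    push Not at hcon
    apply hPQ
    apply ε.injective
    apply Subtype.ext
    exact hinj _ _ hcon.2 hcon.1
  obtain ⟨I, hI, hdet, htri, hE⟩ := exists_monomials X Y hXY
  obtain ⟨hmon, hdeg⟩ := nf_monic hd ζ δ
  -- forward and backward iterates
  set u : ℕ → (Fin n → K) := fun k j => O.y ((O.σ ^ k) (ε j)) with hu
  set b : ℕ → (Fin n → K) := fun k j => O.y ((O.σ⁻¹ ^ (k + 1)) (ε j)) with hb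
  have htopu : ∀ k, IsTop K X Y (d ^ k) (u k) ((1 : K) ^ gexp d k • Y ^ (d ^ k)) := by
    intro k
    have h0 : u 0 = Y := by funext j; simp [hu, hY]
    have := top_iter (K := K) (x := X) (y := Y) hd hmon hdeg 1 δ u X
      (by rw [h0]; exact y_mem_W) x_mem_W
      (by
        funext j
        simp only [Pi.sub_apply, Pi.smul_apply, aeval_pi_apply, smul_eq_mul, one_mul]
        rw [h0]
        have h1 := O.rel (ε j)
        simp only [hu, hX, hY, pow_one]
        rw [← h1]; ring)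
      (fun k => by
        funext j
        simp only [Pi.sub_apply, Pi.smul_apply, aeval_pi_apply, smul_eq_mul, one_mul]
        have h1 := O.rel ((O.σ ^ (k + 1)) (ε j))
        simp only [hu]
        rw [← h1]
        have h2 : O.σ ((O.σ ^ (k + 1)) (ε j)) = (O.σ ^ (k + 2)) (ε j) := by
          rw [pow_succ' O.σ (k + 1)]; rfl
        have h3 : O.σ⁻¹ ((O.σ ^ (k + 1)) (ε j)) = (O.σ ^ k) (ε j) := by
          rw [pow_succ' O.σ k]
          exact O.σ.symm_apply_apply _
        rw [h2, h3]; ring) k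
    rw [h0] at this
    exact this
  have htopb : ∀ k, IsTop K X Y (d ^ k) (b k) ((δ⁻¹ : K) ^ gexp d k • X ^ (d ^ k)) := by
    intro k
    have h0 : b 0 = X := by funext j; simp [hb, hX]
    have := top_iter (K := K) (x := X) (y := Y) hd hmon hdeg δ⁻¹ δ⁻¹ b Y
      (by rw [h0]; exact x_mem_W) y_mem_W
      (by
        funext j
        simp only [Pi.sub_apply, Pi.smul_apply, aeval_pi_apply, smul_eq_mul]
        rw [h0]
        have h1 := O.rel (O.σ⁻¹ (ε j))
        have h4 : O.σ (O.σ⁻¹ (ε j)) = (ε j : ι) := O.σ.apply_symm_apply _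
        rw [h4] at h1
        simp only [hb, hX, hY]
        rw [← h1]
        have h5 : (O.σ⁻¹ ^ (1 + 1)) (ε j : ι) = O.σ⁻¹ (O.σ⁻¹ (ε j)) := by
          rw [pow_succ, pow_one]; rfl
        rw [h5]
        field_simp
        ring)
      (fun k => by
        funext j
        simp only [Pi.sub_apply, Pi.smul_apply, aeval_pi_apply, smul_eq_mul]
        have h1 := O.rel ((O.σ⁻¹ ^ (k + 2)) (ε j))
        simp only [hb]
        rw [← h1]
        have h2 : O.σ ((O.σ⁻¹ ^ (k + 2)) (ε j)) = (O.σ⁻¹ ^ (k + 1)) (ε j) := by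
          rw [pow_succ' O.σ⁻¹ (k + 1)]
          exact O.σ.apply_symm_apply _
        have h3 : O.σ⁻¹ ((O.σ⁻¹ ^ (k + 2)) (ε j)) = (O.σ⁻¹ ^ (k + 2 + 1)) (ε j) := by
          rw [pow_succ' O.σ⁻¹ (k + 2)]; rfl
        rw [h2, h3]
        field_simp
        ring) k
    rw [h0] at this
    exact this
  set ψ : Fin n → (Fin n → K) := fun k => dynP d b L (I k).1 * dynP d u L (I k).2 with hψ
  have hltL : ∀ k, (I k).1 < d ^ L ∧ (I k).2 < d ^ L := by
    intro k
    have := hI k
    constructor <;> omega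
  have hψtop : ∀ k, IsTop K X Y ((I k).1 + (I k).2) (ψ k)
      ((δ⁻¹) ^ dynE d L (I k).1 • (X ^ (I k).1 * Y ^ (I k).2)) := by
    intro k
    have h1 := (top_dynP b X δ⁻¹ htopb L (I k).1 (hltL k).1).mul
      (top_dynP u Y 1 htopu L (I k).2 (hltL k).2)
    rw [one_pow, one_smul, smul_mul_assoc] at h1
    exact h1
  set E' := ∑ k, dynE d L (I k).1 with hE'
  have hdetψ := htri ψ _ hψtop
  rw [Finset.prod_pow_eq_pow_sum, ← hE'] at hdetψ
  set m := (Matrix.of (fun k => X ^ (I k).1 * Y ^ (I k).2)).det with hm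
  refine ⟨m, ∑ k, ((I k).1 + (I k).2), E', hdet, ?_, hE, ?_, ?_⟩
  · rw [hE', Finset.mul_sum]
    refine Finset.sum_le_sum (fun k _ => ?_)
    have := dynE_le (d := d) (by omega) L (I k).1
    omega
  · intro v M c hM hy hc
    have hbnd : ∀ k P, v (Matrix.of ψ k P) ≤ M ^ (2 * (d - 1) * L) := by
      intro k P
      show v ((dynP d b L (I k).1 * dynP d u L (I k).2) P) ≤ _
      rw [Pi.mul_apply, v.map_mul]
      have h1 := dynP_apply_le (L := L) (by omega : 1 ≤ d) b v hM (fun k j => hy _) (I k).1 P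
      have h2 := dynP_apply_le (L := L) (by omega : 1 ≤ d) u v hM (fun k j => hy _) (I k).2 P
      calc v (dynP d b L (I k).1 P) * v (dynP d u L (I k).2 P)
          ≤ M ^ ((d - 1) * L) * M ^ ((d - 1) * L) :=
            mul_le_mul h1 h2 (v.nonneg _) (by positivity)
        _ = M ^ (2 * (d - 1) * L) := by rw [← pow_add]; congr 1; ring
    have hprod : ∏ _k : Fin n, M ^ (2 * (d - 1) * L) = M ^ (2 * (d - 1) * L * n) := by
      rw [Finset.prod_const, Finset.card_univ, Fintype.card_fin, ← pow_mul]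
    have hdetle : v (Matrix.of ψ).det ≤ c * M ^ (2 * (d - 1) * L * n) := by
      rcases hc with rfl | ⟨hv, rfl⟩
      · have := det_le_arch v (Matrix.of ψ) (fun _ => M ^ (2 * (d - 1) * L)) hbnd
        rwa [hprod] at this
      · have := det_le_nonarch v hv (Matrix.of ψ) (fun _ => M ^ (2 * (d - 1) * L)) hbnd
        rwa [hprod, ← one_mul (M ^ _)] at this
    rw [hdetψ, v.map_mul, v.map_pow, map_inv₀] at hdetle
    have hvδ : 0 < v δ := v.pos hδ
    rw [inv_pow, inv_mul_le_iff₀ (by positivity)] at hdetle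
    calc v m ≤ v δ ^ E' * (c * M ^ (2 * (d - 1) * L * n)) := hdetle
      _ = c * (v δ ^ E' * M ^ (2 * (d - 1) * L * n)) := by ring
  · intro v ρ c hρ hclose hc
    rcases Nat.eq_zero_or_pos n with hn0 | hn0
    · -- no points
      have hempty : IsEmpty (Fin n) := by rw [hn0]; infer_instance
      have h1 : m = 1 := by rw [hm]; exact Matrix.det_isEmpty
      have h2 : ∑ k, ((I k).1 + (I k).2) = 0 := by
        exact Finset.sum_of_isEmpty _
      rw [h1, h2, pow_zero, v.map_one, mul_one]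
      rcases hc with rfl | ⟨_, rfl⟩
      · rw [hn0]; simp
      · exact le_rfl
    · set P₀ : Fin n := ⟨0, hn0⟩ with hP₀
      set ψ' : Fin n → (Fin n → K) := fun k =>
        (X - algebraMap K (Fin n → K) (X P₀)) ^ (I k).1 *
          (Y - algebraMap K (Fin n → K) (Y P₀)) ^ (I k).2 with hψ'
      have hXtop : IsTop K X Y 1 (X - algebraMap K (Fin n → K) (X P₀)) X :=
        (IsTop.refl x_mem_W).sub_lower (algebraMap_mem_W _)
      have hYtop : IsTop K X Y 1 (Y - algebraMap K (Fin n → K) (Y P₀)) Y :=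
        (IsTop.refl y_mem_W).sub_lower (algebraMap_mem_W _)
      have hψ'top : ∀ k, IsTop K X Y ((I k).1 + (I k).2) (ψ' k)
          ((1 : K) • (X ^ (I k).1 * Y ^ (I k).2)) := by
        intro k
        have h1 := (hXtop.pow (I k).1).mul (hYtop.pow (I k).2)
        rw [mul_one, mul_one] at h1
        rw [one_smul]
        exact h1
      have hdetψ' := htri ψ' _ hψ'top
      rw [Finset.prod_const_one, one_mul] at hdetψ'
      have hbnd : ∀ k P, v (Matrix.of ψ' k P) ≤ ρ ^ ((I k).1 + (I k).2) := by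
        intro k P
        show v ((X P - X P₀) ^ (I k).1 * (Y P - Y P₀) ^ (I k).2) ≤ _
        have h1 := hclose (ε P) (ε P).2 (ε P₀) (ε P₀).2
        rw [v.map_mul, v.map_pow, v.map_pow, pow_add]
        exact mul_le_mul (pow_le_pow_left₀ (v.nonneg _) h1.2 _)
          (pow_le_pow_left₀ (v.nonneg _) h1.1 _) (by positivity) (by positivity)
      rw [← hdetψ', ← Finset.prod_pow_eq_pow_sum]
      rcases hc with rfl | ⟨hv, rfl⟩
      · exact det_le_arch v (Matrix.of ψ') (fun k => ρ ^ ((I k).1 + (I k).2)) hbnd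
      · rw [one_mul]
        exact det_le_nonarch v hv (Matrix.of ψ') (fun k => ρ ^ ((I k).1 + (I k).2)) hbnd

end Pool.Agent.H.MP_0e6b5f_nt.Dom
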