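import Pool.Agent.H.MP_0e6b5f_nt.Defs

/-!
# Fixed point data of a Henon map and periodic points over an intermediate field
-/

namespace Pool.Agent.H.MP_0e6b5f_nt

open Polynomial

/-- The polynomial `F = (1 + δ) X + c ^ (d - 1) ∏ (X - ζ i)`. The fixed points of the Henon map
`(x, y) ↦ (y, F(y) - δ x)` are the points `(ζ i, ζ i)`. -/
noncomputable def fixedPointForm {K : Type*} [Field K] {d : ℕ} (c δ : K) (ζ : Fin d → K) : K[X] :=
  C (1 + δ) * X + C (c ^ (d - 1)) * ∏ i, (X - C (ζ i))

/-- The tuple `(1, c (ζ i - ζ j))`, indexed by `none` and by the pairs `(i, j)`. -/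
def fixedPointTuple {K : Type*} [Field K] {d : ℕ} (c : K) (ζ : Fin d → K) :
    Option (Fin d × Fin d) → K :=
  fun o => o.elim 1 (fun p => c * (ζ p.1 - ζ p.2))

/-- The fixed point diameter `max |c (ζ i - ζ j)|` for an absolute value. -/
noncomputable def fixedPointDiam {K : Type*} [Field K] {d : ℕ} (w : AbsoluteValue K ℝ) (c : K)
    (ζ : Fin d → K) : ℝ :=
  ⨆ p : Fin d × Fin d, w (c * (ζ p.1 - ζ p.2))

/-- The height `h(1 : c (ζ i - ζ j)) + h(δ)` over `K` of the Henon map with the polynomial
`fixedPointForm c δ ζ` and the Jacobian `δ`. -/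
noncomputable def fixedPointHeight {K : Type*} [Field K] [NumberField K] {d : ℕ} (c δ : K)
    (ζ : Fin d → K) : ℝ :=
  Height.logHeight (fixedPointTuple c ζ) + Height.logHeight₁ δ

/-- The quantity `Y = 1 + [L : K] ([K : ℚ] + h) / log R`, where `h` is the height
`fixedPointHeight c δ ζ` and `R` is the fixed point diameter at `w`. -/
noncomputable def heightRatio {K : Type*} [Field K] [NumberField K] {d : ℕ}
    (w : AbsoluteValue K ℝ) (c δ : K) (ζ : Fin d → K)
    (L : IntermediateField K (AlgebraicClosure K)) : ℝ :=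
  1 + Module.finrank K L * (Module.finrank ℚ K + fixedPointHeight c δ ζ) /
    Real.log (fixedPointDiam w c ζ)

/-- The periodic points of the Henon map `henon F δ` with coordinates in `L`. -/
def perIn {K : Type*} [Field K] (F : K[X]) (δ : K)
    (L : IntermediateField K (AlgebraicClosure K)) :
    Set (AlgebraicClosure K × AlgebraicClosure K) :=
  {P | P.1 ∈ L ∧ P.2 ∈ L ∧ ∃ n : ℕ, 1 ≤ n ∧ (henon F δ)^[n] P = P}

end Pool.Agent.H.MP_0e6b5f_nt
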