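import Pool.Agent.H.MP_0e6b5f_nt.Dom.OrbBound

/-!
# The bound for the rational periodic points of a Henon map
-/

namespace Pool.Agent.H.MP_0e6b5f_nt.Dom

open Height Height.AdmissibleAbsValues Function Real Polynomial

/-- The Henon map on `K × K`. -/
def hen {K : Type*} [Field K] (F : K[X]) (δ : K) (P : K × K) : K × K :=
  (P.2, F.eval P.2 - δ * P.1)

theorem hen_injective {K : Type*} [Field K] (F : K[X]) {δ : K} (hδ : δ ≠ 0) :
    Function.Injective (hen F δ) := by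
  rintro ⟨a, b⟩ ⟨a', b'⟩ h
  simp only [hen, Prod.mk.injEq] at h
  obtain ⟨h1, h2⟩ := h
  subst h1
  have h3 : δ * a = δ * a' := by linear_combination -h2
  rw [mul_right_injective₀ hδ h3]

variable {K : Type*} [Field K]

/-- A finite set of periodic points is contained in a finite invariant set. -/
theorem exists_invariant [DecidableEq K] (f : K × K → K × K) (T : Finset (K × K))
    (hT : ∀ P ∈ T, ∃ n, 1 ≤ n ∧ f^[n] P = P) :
    ∃ S : Finset (K × K), T ⊆ S ∧ ∀ P ∈ S, f P ∈ S := by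
  classical
  choose! n hn hper using hT
  set N := ∏ P ∈ T, n P with hN
  have hN1 : 1 ≤ N := Finset.one_le_prod' (fun P hP => hn P hP)
  have hfN : ∀ P ∈ T, f^[N] P = P := by
    intro P hP
    have h1 : n P ∣ N := Finset.dvd_prod_of_mem n hP
    obtain ⟨k, hk⟩ := h1
    rw [hk]
    have h2 : Function.IsPeriodicPt f (n P) P := hper P hP
    exact h2.mul_const k
  refine ⟨(T ×ˢ Finset.range N).image (fun q => f^[q.2] q.1), ?_, ?_⟩
  · intro P hP
    rw [Finset.mem_image]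
    exact ⟨(P, 0), by simp [hP, Nat.pos_of_ne_zero (by omega : N ≠ 0)], rfl⟩
  · intro P hP
    rw [Finset.mem_image] at hP ⊢
    obtain ⟨⟨Q, k⟩, hQ, rfl⟩ := hP
    rw [Finset.mem_product, Finset.mem_range] at hQ
    obtain ⟨hQT, hk⟩ := hQ
    have hk' : k < N := hk
    have hQT' : Q ∈ T := hQT
    rcases Nat.lt_or_ge (k + 1) N with h | h
    · exact ⟨(Q, k + 1), by simp [hQT', h], by
        show f^[k + 1] Q = f (f^[k] Q)
        rw [Function.iterate_succ_apply']⟩
    · have hkN : k + 1 = N := by omega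
      refine ⟨(Q, 0), by simp [hQT']; omega, ?_⟩
      show Q = f (f^[k] Q)
      rw [← Function.iterate_succ_apply' f k Q]
      show Q = f^[k + 1] Q
      rw [hkN, hfN Q hQT']

/-- The polynomial of a Henon map with all its fixed points rational. -/
noncomputable def fixPoly {d : ℕ} (c δ : K) (ζ : Fin d → K) : K[X] :=
  C (1 + δ) * X + C (c ^ (d - 1)) * ∏ i, (X - C (ζ i))

theorem fixPoly_eval {d : ℕ} (c δ : K) (ζ : Fin d → K) (z : K) :
    (fixPoly c δ ζ).eval z = (1 + δ) * z + c ^ (d - 1) * ∏ i, (z - ζ i) := by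
  simp [fixPoly, eval_prod]

/-- The finite invariant set as an abstract orbit. -/
theorem exists_orb {d : ℕ} (hd : 2 ≤ d) {c δ : K} (hδ : δ ≠ 0) (ζ : Fin d → K)
    (i₀ : Fin d) (S : Finset (K × K)) (hS : ∀ P ∈ S, hen (fixPoly c δ ζ) δ P ∈ S) :
    ∃ O : Orb (fun i => c * (ζ i - ζ i₀)) δ S, (∀ P : S, O.y P = c * (P.1.2 - ζ i₀)) ∧
      ∀ P : S, O.y (O.σ⁻¹ P) = c * (P.1.1 - ζ i₀) := by
  classical
  set f : S → S := fun P => ⟨hen (fixPoly c δ ζ) δ P.1, hS P.1 P.2⟩ with hf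
  have hinj : Function.Injective f := by
    intro P Q h
    apply Subtype.ext
    apply hen_injective _ hδ
    exact congrArg Subtype.val h
  set σ : Equiv.Perm S := Equiv.ofBijective f (Finite.injective_iff_bijective.mp hinj) with hσ
  have hσf : ∀ P, (σ P : S).1 = hen (fixPoly c δ ζ) δ P.1 := fun P => rfl
  have hinv : ∀ P : S, (σ⁻¹ P : S).1.2 = P.1.1 := by
    intro P
    have h1 : σ (σ⁻¹ P) = P := σ.apply_symm_apply P
    have h2 := hσf (σ⁻¹ P)
    rw [h1] at h2
    rw [h2]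
    rfl
  refine ⟨⟨σ, fun P => c * (P.1.2 - ζ i₀), ?_⟩, fun P => rfl, fun P => ?_⟩
  · intro P
    rw [nf_eval]
    show c * ((σ P).1.2 - ζ i₀) + δ * (c * ((σ⁻¹ P).1.2 - ζ i₀)) = _
    rw [hinv, hσf]
    show c * (((fixPoly c δ ζ).eval P.1.2 - δ * P.1.1) - ζ i₀) + δ * (c * (P.1.1 - ζ i₀)) = _
    rw [fixPoly_eval]
    have h1 : ∏ i, (c * (P.1.2 - ζ i₀) - c * (ζ i - ζ i₀)) =
        c * (c ^ (d - 1) * ∏ i, (P.1.2 - ζ i)) := by
      have h2 : ∀ i, c * (P.1.2 - ζ i₀) - c * (ζ i - ζ i₀) = c * (P.1.2 - ζ i) := fun i => by ring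
      simp only [h2]
      rw [Finset.prod_mul_distrib, Finset.prod_const, Finset.card_univ, Fintype.card_fin,
        ← mul_assoc, ← pow_succ', Nat.sub_add_cancel (by omega)]
    rw [h1]
    ring
  · show c * ((σ⁻¹ P).1.2 - ζ i₀) = _
    rw [hinv]

/-- The bound for an arbitrary finite set of periodic points over a field with a product
formula. -/
theorem per_finset_card_le [AdmissibleAbsValues K] {d : ℕ} (hd : 2 ≤ d) {c δ : K} (hc : c ≠ 0)
    (hδ : δ ≠ 0) (ζ : Fin d → K) (w : AbsoluteValue K ℝ) {R : ℝ}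
    (hw : w ∈ nonarchAbsVal (K := K) ∨ (w ∈ archAbsVal (K := K) ∧ 2 ^ (40 * d + 80) ≤ R))
    (hR : 1 < R) (hRle : ∀ i j, w (c * (ζ i - ζ j)) ≤ R) (hRge : ∃ i j, R ≤ w (c * (ζ i - ζ j)))
    (hδ1 : w δ ^ 4 ≤ R) (hδ2 : (w δ)⁻¹ ^ 4 ≤ R) (T : Finset (K × K))
    (hT : ∀ P ∈ T, ∃ n, 1 ≤ n ∧ (hen (fixPoly c δ ζ) δ)^[n] P = P) :
    (T.card : ℝ) ≤ cst4 d * ((1 + (totalWeight K +
        log (mulHeight (tup (fun i => c * ζ i)) * mulHeight₁ δ)) / log R) *
      (1 + log (1 + (totalWeight K +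
        log (mulHeight (tup (fun i => c * ζ i)) * mulHeight₁ δ)) / log R))) ^ 2 := by
  classical
  obtain ⟨S, hTS, hS⟩ := exists_invariant _ T hT
  have i₀ : Fin d := ⟨0, by omega⟩
  obtain ⟨O, hy, hx⟩ := exists_orb hd hδ ζ i₀ S hS
  have hinj : ∀ P Q, O.y P = O.y Q → O.y (O.σ⁻¹ P) = O.y (O.σ⁻¹ Q) → P = Q := by
    intro P Q h1 h2
    rw [hy, hy] at h1
    rw [hx, hx] at h2
    have h3 := mul_right_injective₀ hc h1
    have h4 := mul_right_injective₀ hc h2
    apply Subtype.ext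
    apply Prod.ext
    · exact sub_left_injective h4
    · exact sub_left_injective h3
  have htup : tup (fun i => c * (ζ i - ζ i₀)) = tup (fun i => c * ζ i) := by
    funext o
    cases o with
    | none => rfl
    | some p => simp only [tup, Option.elim]; ring
  obtain ⟨A, hA, hqu, hAR⟩ : ∃ A : ℝ, 1 ≤ A ∧ QU w A ∧ A ^ (40 * d + 80) ≤ R := by
    rcases hw with hw | ⟨hw, hR'⟩
    · exact ⟨1, le_rfl, QU.of_nonarch (isNonarchimedean w hw), by rw [one_pow]; exact hR.le⟩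
    · exact ⟨2, by norm_num, QU.of_two w, hR'⟩
  have hwδ : 0 < w δ := w.pos hδ
  have hbad : Bad (fun i => c * (ζ i - ζ i₀)) δ w A R (max (w δ) (w δ)⁻¹) := {
    hd := hd
    qu := hqu
    hA := hA
    hR := hR
    hζ := fun i => hRle i i₀
    hdiam := by
      obtain ⟨i, j, hij⟩ := hRge
      refine ⟨i, j, ?_⟩
      have : c * (ζ i - ζ i₀) - c * (ζ j - ζ i₀) = c * (ζ i - ζ j) := by ring
      rw [this]
      exact hij
    he := by
      rcases le_total 1 (w δ) with h | h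
      · exact h.trans (le_max_left _ _)
      · exact (one_le_inv_iff₀.mpr ⟨hwδ, h⟩).trans (le_max_right _ _)
    hδ := le_max_left _ _
    heR := by
      rcases le_total (w δ) (w δ)⁻¹ with h | h
      · rw [max_eq_right h]; exact hδ2
      · rw [max_eq_left h]; exact hδ1
    hAR := hAR }
  have h0 : c * (ζ i₀ - ζ i₀) = 0 := by rw [sub_self, mul_zero]
  have h1 := orb_card_le (i₀ := i₀) h0 hδ O hinj w (hw.imp id And.left) hbad (le_max_right _ _)
  rw [htup] at h1
  refine le_trans ?_ h1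
  have h2 := Finset.card_le_card hTS
  rw [Fintype.card_coe]
  exact_mod_cast h2

/-- A set all of whose finite subsets have at most `b` elements. -/
theorem finite_of_finset_card_le {α : Type*} {s : Set α} {b : ℝ}
    (h : ∀ T : Finset α, (∀ x ∈ T, x ∈ s) → (T.card : ℝ) ≤ b) :
    s.Finite ∧ (s.ncard : ℝ) ≤ b := by
  classical
  have hfin : s.Finite := by
    by_contra hinf
    obtain ⟨T, hT, hc⟩ := Set.Infinite.exists_subset_card_eq hinf (⌊b⌋₊ + 1)
    have h1 := h T (fun x hx => hT hx)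
    rw [hc] at h1
    have h2 := Nat.lt_floor_add_one b
    push_cast at h1
    linarith
  refine ⟨hfin, ?_⟩
  rw [Set.ncard_eq_toFinset_card s hfin]
  exact h _ (fun x hx => (Set.Finite.mem_toFinset hfin).mp hx)

end Pool.Agent.H.MP_0e6b5f_nt.Dom
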