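import Mathlib

/-!
# Filtration by total degree and leading parts
-/

namespace Pool.Agent.H.MP_0e6b5f_nt.Dom

open Polynomial Submodule

variable {K A : Type*} [Field K] [CommRing A] [Algebra K A]

/-- Span of the monomials `x ^ i * y ^ j` with `i + j < m`. -/
def W (K : Type*) {A : Type*} [Field K] [CommRing A] [Algebra K A] (x y : A) (m : ℕ) :
    Submodule K A :=
  span K {u | ∃ i j : ℕ, i + j < m ∧ u = x ^ i * y ^ j}

variable {x y : A}

theorem W_mono {m m' : ℕ} (h : m ≤ m') : W K x y m ≤ W K x y m' := by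
  apply span_mono
  rintro _ ⟨i, j, hij, rfl⟩
  exact ⟨i, j, hij.trans_le h, rfl⟩

theorem mon_mem (i j : ℕ) {m : ℕ} (h : i + j < m) : x ^ i * y ^ j ∈ W K x y m :=
  subset_span ⟨i, j, h, rfl⟩

theorem one_mem_W : (1 : A) ∈ W K x y 1 := by
  have := mon_mem (K := K) (x := x) (y := y) 0 0 (m := 1) (by omega)
  simpa using this

theorem x_mem_W : x ∈ W K x y 2 := by
  have := mon_mem (K := K) (x := x) (y := y) 1 0 (m := 2) (by omega)
  simpa using this

theorem y_mem_W : y ∈ W K x y 2 := by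
  have := mon_mem (K := K) (x := x) (y := y) 0 1 (m := 2) (by omega)
  simpa using this

theorem algebraMap_mem_W (c : K) : algebraMap K A c ∈ W K x y 1 := by
  rw [Algebra.algebraMap_eq_smul_one]
  exact smul_mem _ _ one_mem_W

theorem mul_mem_W {a b : ℕ} {u v : A} (hu : u ∈ W K x y a) (hv : v ∈ W K x y (b + 1)) :
    u * v ∈ W K x y (a + b) := by
  have h : W K x y a * W K x y (b + 1) ≤ W K x y (a + b) := by
    rw [W, W, span_mul_span, span_le]
    rintro _ ⟨_, ⟨i, j, hij, rfl⟩, _, ⟨i', j', hij', rfl⟩, rfl⟩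
    refine subset_span ⟨i + i', j + j', by omega, ?_⟩
    simp only [pow_add]
    ring
  exact h (mul_mem_mul hu hv)

theorem pow_mem_W {m : ℕ} {u : A} (hu : u ∈ W K x y (m + 1)) (e : ℕ) :
    u ^ e ∈ W K x y (e * m + 1) := by
  induction e with
  | zero => simpa using one_mem_W
  | succ e ih =>
    rw [pow_succ]
    have := mul_mem_W ih hu
    exact W_mono (by rw [Nat.succ_mul]; omega) this

theorem aeval_mem_W {m e : ℕ} {u : A} (hu : u ∈ W K x y (m + 1)) (p : K[X])
    (hp : p.natDegree ≤ e) : aeval u p ∈ W K x y (e * m + 1) := by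
  rw [aeval_eq_sum_range]
  refine sum_mem (fun i hi => smul_mem _ _ ?_)
  have hi' : i ≤ e := (Nat.lt_succ_iff.mp (Finset.mem_range.mp hi)).trans hp
  exact W_mono (by have := Nat.mul_le_mul_right m hi'; omega) (pow_mem_W hu i)

/-- `u` has leading part `g` in total degree `m`. -/
def IsTop (K : Type*) {A : Type*} [Field K] [CommRing A] [Algebra K A] (x y : A) (m : ℕ)
    (u g : A) : Prop :=
  u - g ∈ W K x y m ∧ g ∈ W K x y (m + 1)

theorem IsTop.mem {m : ℕ} {u g : A} (h : IsTop K x y m u g) : u ∈ W K x y (m + 1) := by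
  have : u = (u - g) + g := by ring
  rw [this]
  exact add_mem (W_mono (by omega) h.1) h.2

theorem IsTop.refl {m : ℕ} {g : A} (h : g ∈ W K x y (m + 1)) : IsTop K x y m g g :=
  ⟨by simp, h⟩

theorem IsTop.one : IsTop K x y 0 (1 : A) 1 := IsTop.refl one_mem_W

theorem IsTop.mul {m m' : ℕ} {u g u' g' : A} (h : IsTop K x y m u g) (h' : IsTop K x y m' u' g') :
    IsTop K x y (m + m') (u * u') (g * g') := by
  refine ⟨?_, ?_⟩
  · have : u * u' - g * g' = (u - g) * u' + (u' - g') * g := by ring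
    rw [this]
    refine add_mem (mul_mem_W h.1 h'.mem) ?_
    have := mul_mem_W h'.1 h.2
    rwa [add_comm m' m] at this
  · have := mul_mem_W h.2 h'.2
    exact W_mono (by omega) this

theorem IsTop.pow {m : ℕ} {u g : A} (h : IsTop K x y m u g) (e : ℕ) :
    IsTop K x y (e * m) (u ^ e) (g ^ e) := by
  induction e with
  | zero => simpa using IsTop.one
  | succ e ih =>
    rw [pow_succ, pow_succ, Nat.succ_mul]
    exact ih.mul h

theorem IsTop.smul {m : ℕ} {u g : A} (h : IsTop K x y m u g) (c : K) :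
    IsTop K x y m (c • u) (c • g) :=
  ⟨by rw [← smul_sub]; exact smul_mem _ _ h.1, smul_mem _ _ h.2⟩

theorem IsTop.sub_lower {m : ℕ} {u g r : A} (h : IsTop K x y m u g) (hr : r ∈ W K x y m) :
    IsTop K x y m (u - r) g :=
  ⟨by
    have : u - r - g = (u - g) - r := by ring
    rw [this]
    exact sub_mem h.1 hr, h.2⟩

theorem IsTop.aeval {m : ℕ} {u g : A} (h : IsTop K x y m u g) (hm : 1 ≤ m) {F : K[X]} {d : ℕ}
    (hd : 1 ≤ d) (hF : F.Monic) (hFd : F.natDegree = d) :
    IsTop K x y (d * m) (Polynomial.aeval u F) (g ^ d) := by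
  have h1 : F = X ^ d + F.eraseLead := by
    have := F.eraseLead_add_C_mul_X_pow
    rw [hF.leadingCoeff, hFd, C_1, one_mul] at this
    rw [add_comm]
    exact this.symm
  have h2 : Polynomial.aeval u F = u ^ d + Polynomial.aeval u F.eraseLead := by
    conv_lhs => rw [h1]
    simp
  have h3 : Polynomial.aeval u F.eraseLead ∈ W K x y ((d - 1) * m + 1) := by
    apply aeval_mem_W h.mem
    have := F.eraseLead_natDegree_le
    rw [hFd] at this
    exact this
  have h4 : Polynomial.aeval u F.eraseLead ∈ W K x y (d * m) := by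
    apply W_mono _ h3
    obtain ⟨e, rfl⟩ : ∃ e, d = e + 1 := ⟨d - 1, by omega⟩
    simp only [Nat.add_sub_cancel]
    rw [Nat.succ_mul]
    omega
  refine ⟨?_, (h.pow d).2⟩
  have : Polynomial.aeval u F - g ^ d = (u ^ d - g ^ d) + Polynomial.aeval u F.eraseLead := by
    rw [h2]; ring
  rw [this]
  exact add_mem (h.pow d).1 h4

/-- The exponents `(d ^ k - 1) / (d - 1)`. -/
def gexp (d : ℕ) : ℕ → ℕ
  | 0 => 0
  | k + 1 => d * gexp d k + 1

theorem gexp_eq {d : ℕ} (hd : 1 ≤ d) (k : ℕ) : (d - 1) * gexp d k + 1 = d ^ k := by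
  induction k with
  | zero => simp [gexp]
  | succ k ih =>
    rw [gexp, pow_succ, ← ih]
    obtain ⟨e, rfl⟩ : ∃ e, d = e + 1 := ⟨d - 1, by omega⟩
    simp only [Nat.add_sub_cancel]
    ring

/-- Leading parts of the iterates. -/
theorem top_iter {d : ℕ} (hd : 2 ≤ d) {F : K[X]} (hF : F.Monic) (hFd : F.natDegree = d)
    (α β : K) (u : ℕ → A) (z' : A) (h0 : u 0 ∈ W K x y 2) (hz' : z' ∈ W K x y 2)
    (h1 : u 1 = α • Polynomial.aeval (u 0) F - β • z')
    (h2 : ∀ k, u (k + 2) = α • Polynomial.aeval (u (k + 1)) F - β • u k) (k : ℕ) :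
    IsTop K x y (d ^ k) (u k) (α ^ gexp d k • (u 0) ^ (d ^ k)) := by
  have key : ∀ k, IsTop K x y (d ^ k) (u k) (α ^ gexp d k • (u 0) ^ (d ^ k)) →
      IsTop K x y (d ^ (k + 1)) (α • Polynomial.aeval (u k) F)
        (α ^ gexp d (k + 1) • (u 0) ^ (d ^ (k + 1))) := by
    intro k hk
    have h3 := (hk.aeval (Nat.one_le_pow _ _ (by omega)) (by omega) hF hFd).smul α
    have e1 : α • (α ^ gexp d k • u 0 ^ d ^ k) ^ d =
        α ^ gexp d (k + 1) • (u 0) ^ (d ^ (k + 1)) := by
      rw [_root_.smul_pow, smul_smul, ← pow_mul, ← pow_mul, gexp, pow_succ d k, pow_succ α,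
        mul_comm (gexp d k) d, mul_comm α]
    rw [e1, mul_comm d, ← pow_succ] at h3
    exact h3
  induction k using Nat.strong_induction_on with
  | _ k ih =>
    match k with
    | 0 =>
      simp only [gexp, pow_zero, one_smul, pow_one]
      exact IsTop.refl h0
    | 1 =>
      rw [h1]
      refine (key 0 (ih 0 (by omega))).sub_lower (smul_mem _ _ (W_mono ?_ hz'))
      simpa using hd
    | k + 2 =>
      rw [h2]
      refine (key (k + 1) (ih (k + 1) (by omega))).sub_lower
        (smul_mem _ _ (W_mono ?_ (ih k (by omega)).mem))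
      have h3 : d ^ (k + 1 + 1) = d ^ k * (d * d) := by ring
      rw [h3]
      have h4 : 1 ≤ d ^ k := Nat.one_le_pow _ _ (by omega)
      have h5 : 4 ≤ d * d := Nat.mul_le_mul hd hd
      have h6 := Nat.mul_le_mul_left (d ^ k) h5
      omega

/-- Sum of the first `L` base `d` digits. -/
theorem sum_digits (d i L : ℕ) : ∑ k ∈ Finset.range L, (i / d ^ k % d) * d ^ k = i % d ^ L := by
  induction L with
  | zero => simp [Nat.mod_one]
  | succ L ih =>
    rw [Finset.sum_range_succ, ih, Nat.mod_pow_succ, mul_comm (d ^ L)]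

/-- The dynamical basis functions. -/
def dynP (d : ℕ) (u : ℕ → A) (L i : ℕ) : A := ∏ k ∈ Finset.range L, u k ^ (i / d ^ k % d)

/-- The exponent of the leading coefficient of the dynamical basis functions. -/
def dynE (d L i : ℕ) : ℕ := ∑ k ∈ Finset.range L, (i / d ^ k % d) * gexp d k

theorem dynE_le {d : ℕ} (hd : 1 ≤ d) (L i : ℕ) : (d - 1) * dynE d L i ≤ i := by
  calc (d - 1) * dynE d L i = ∑ k ∈ Finset.range L, (i / d ^ k % d) * ((d - 1) * gexp d k) := by
        rw [dynE, Finset.mul_sum]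
        refine Finset.sum_congr rfl (fun k _ => by ring)
    _ ≤ ∑ k ∈ Finset.range L, (i / d ^ k % d) * d ^ k := by
        refine Finset.sum_le_sum (fun k _ => Nat.mul_le_mul_left _ ?_)
        have := gexp_eq hd k
        omega
    _ = i % d ^ L := sum_digits d i L
    _ ≤ i := Nat.mod_le _ _

theorem top_dynP {d : ℕ} (u : ℕ → A) (z : A) (α : K)
    (hu : ∀ k, IsTop K x y (d ^ k) (u k) (α ^ gexp d k • z ^ (d ^ k))) (L i : ℕ)
    (hi : i < d ^ L) :
    IsTop K x y i (dynP d u L i) (α ^ dynE d L i • z ^ i) := by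
  have h : ∀ L, IsTop K x y (∑ k ∈ Finset.range L, (i / d ^ k % d) * d ^ k) (dynP d u L i)
      (α ^ dynE d L i • z ^ (∑ k ∈ Finset.range L, (i / d ^ k % d) * d ^ k)) := by
    intro L
    induction L with
    | zero => simpa [dynP, dynE] using IsTop.one
    | succ L ih =>
      have h1 := ih.mul ((hu L).pow (i / d ^ L % d))
      rw [dynP, Finset.prod_range_succ, dynE, Finset.sum_range_succ, Finset.sum_range_succ]
      have e1 : α ^ (∑ k ∈ Finset.range L, (i / d ^ k % d) * gexp d k +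
          (i / d ^ L % d) * gexp d L) •
          z ^ (∑ k ∈ Finset.range L, (i / d ^ k % d) * d ^ k + (i / d ^ L % d) * d ^ L) =
          (α ^ dynE d L i • z ^ ∑ k ∈ Finset.range L, i / d ^ k % d * d ^ k) *
            (α ^ gexp d L • z ^ d ^ L) ^ (i / d ^ L % d) := by
        rw [_root_.smul_pow, smul_mul_smul_comm, ← pow_mul, ← pow_mul, pow_add, pow_add,
          mul_comm (gexp d L), mul_comm (d ^ L)]
        rfl
      rw [e1]
      exact h1
  have h1 := h L
  rw [sum_digits, Nat.mod_eq_of_lt hi] at h1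
  exact h1

end Pool.Agent.H.MP_0e6b5f_nt.Dom
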