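import Pool.Agent.H.MP_0e6b5f_nt.Dom.Greedy
import Pool.Agent.H.MP_0e6b5f_nt.Dom.Top

/-!
# Monomials ordered by total degree and interpolation determinants in two variables
-/

namespace Pool.Agent.H.MP_0e6b5f_nt.Dom

open Module Submodule

/-- Triangular numbers. -/
def tri : ℕ → ℕ
  | 0 => 0
  | s + 1 => tri s + s + 1

/-- Enumeration of the exponents by total degree. -/
def enum : ℕ → ℕ × ℕ
  | 0 => (0, 0)
  | t + 1 => if (enum t).2 = 0 then (0, (enum t).1 + 1) else ((enum t).1 + 1, (enum t).2 - 1)

theorem two_tri (s : ℕ) : 2 * tri s = s * (s + 1) := by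
  induction s with
  | zero => rfl
  | succ s ih => rw [tri]; linarith

theorem tri_mono {a b : ℕ} (h : a ≤ b) : tri a ≤ tri b := by
  induction b, h using Nat.le_induction with
  | base => exact le_rfl
  | succ n _ ih => rw [tri]; omega

theorem enum_tri : ∀ s i, i ≤ s → enum (tri s + i) = (i, s - i) := by
  intro s
  induction s with
  | zero =>
    intro i hi
    obtain rfl : i = 0 := by omega
    rfl
  | succ s ih =>
    intro i
    induction i with
    | zero =>
      intro _
      have h1 := ih s le_rfl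
      rw [Nat.sub_self] at h1
      show enum (tri s + s + 1) = _
      rw [enum, h1]
      simp
    | succ i ih2 =>
      intro hi
      have h1 := ih2 (by omega)
      rw [← add_assoc, enum, h1]
      have h2 : s + 1 - i ≠ 0 := by omega
      simp only [h2, if_false]
      congr 1

theorem exists_tri (t : ℕ) : ∃ s i, i ≤ s ∧ t = tri s + i := by
  induction t with
  | zero => exact ⟨0, 0, le_rfl, rfl⟩
  | succ t ih =>
    obtain ⟨s, i, hi, rfl⟩ := ih
    rcases Nat.lt_or_ge i s with h | h
    · exact ⟨s, i + 1, h, by ring⟩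
    · obtain rfl : i = s := by omega
      exact ⟨i + 1, 0, by omega, by rw [tri]⟩

/-- Total degree of the `t`-th monomial. -/
def edeg (t : ℕ) : ℕ := (enum t).1 + (enum t).2

theorem edeg_tri {s i : ℕ} (h : i ≤ s) : edeg (tri s + i) = s := by
  rw [edeg, enum_tri s i h]
  show i + (s - i) = s
  omega

theorem le_edeg {q t : ℕ} (h : tri q ≤ t) : q ≤ edeg t := by
  obtain ⟨s, i, hi, rfl⟩ := exists_tri t
  rw [edeg_tri hi]
  by_contra hcon
  have h1 : tri (s + 1) ≤ tri q := tri_mono (by omega)
  rw [tri] at h1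
  omega

theorem edeg_lt {q t : ℕ} (h : t < tri q) : edeg t < q := by
  obtain ⟨s, i, hi, rfl⟩ := exists_tri t
  rw [edeg_tri hi]
  by_contra hcon
  have h1 : tri q ≤ tri s := tri_mono (by omega)
  omega

theorem exists_enum {i j t : ℕ} (h : i + j < edeg t) : ∃ t' < t, enum t' = (i, j) := by
  obtain ⟨s, k, hk, rfl⟩ := exists_tri t
  rw [edeg_tri hk] at h
  refine ⟨tri (i + j) + i, ?_, ?_⟩
  · have h1 : tri (i + j + 1) ≤ tri s := tri_mono (by omega)
    rw [tri] at h1
    omega
  · rw [enum_tri _ _ (by omega)]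
    congr 1
    omega

variable {K : Type*} [Field K]

theorem prod_mem_W {A ι : Type*} [CommRing A] [Algebra K A] {x y : A} [DecidableEq ι]
    (s : Finset ι) (f : ι → A) (h : ∀ i ∈ s, f i ∈ W K x y 2) :
    ∏ i ∈ s, f i ∈ W K x y (s.card + 1) := by
  induction s using Finset.induction_on with
  | empty => simpa using one_mem_W
  | insert a s ha ih =>
    rw [Finset.prod_insert ha, Finset.card_insert_of_notMem ha]
    have h1 := mul_mem_W (h a (Finset.mem_insert_self _ _))
      (ih (fun i hi => h i (Finset.mem_insert_of_mem hi)))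
    exact W_mono (by omega) h1

theorem W_top {n : ℕ} (X Y : Fin n → K)
    (hinj : ∀ P Q, P ≠ Q → X P ≠ X Q ∨ Y P ≠ Y Q) : W K X Y n = ⊤ := by
  classical
  rw [eq_top_iff]
  intro f _
  rw [pi_eq_sum_univ f]
  refine sum_mem (fun P _ => smul_mem _ _ ?_)
  set ℓ : Fin n → (Fin n → K) := fun Q =>
    if X P ≠ X Q then (X P - X Q)⁻¹ • (X - algebraMap K (Fin n → K) (X Q))
    else (Y P - Y Q)⁻¹ • (Y - algebraMap K (Fin n → K) (Y Q)) with hℓ
  have hmem : ∀ Q, ℓ Q ∈ W K X Y 2 := by
    intro Q
    simp only [hℓ]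
    split_ifs
    · exact smul_mem _ _ (sub_mem x_mem_W (W_mono (by omega) (algebraMap_mem_W _)))
    · exact smul_mem _ _ (sub_mem y_mem_W (W_mono (by omega) (algebraMap_mem_W _)))
  have hprod : (fun j => if P = j then (1 : K) else 0) = ∏ Q ∈ Finset.univ.erase P, ℓ Q := by
    funext R
    rw [Finset.prod_apply]
    by_cases hR : P = R
    · subst hR
      rw [if_pos rfl]
      symm
      apply Finset.prod_eq_one
      intro Q hQ
      have hne : P ≠ Q := (Finset.ne_of_mem_erase hQ).symm
      simp only [hℓ]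
      split_ifs with h
      · simp only [Pi.smul_apply, Pi.sub_apply, Pi.algebraMap_apply, Algebra.algebraMap_self,
          RingHom.id_apply, smul_eq_mul]
        exact inv_mul_cancel₀ (sub_ne_zero.mpr h)
      · simp only [Pi.smul_apply, Pi.sub_apply, Pi.algebraMap_apply, Algebra.algebraMap_self,
          RingHom.id_apply, smul_eq_mul]
        have h2 : Y P ≠ Y Q := (hinj P Q hne).resolve_left h
        exact inv_mul_cancel₀ (sub_ne_zero.mpr h2)
    · rw [if_neg hR]
      symm
      apply Finset.prod_eq_zero (Finset.mem_erase.mpr ⟨Ne.symm hR, Finset.mem_univ R⟩)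
      simp only [hℓ]
      split_ifs with h
      · simp
      · simp
  rw [hprod]
  have h1 := prod_mem_W (Finset.univ.erase P) ℓ (fun Q _ => hmem Q)
  rw [Finset.card_erase_of_mem (Finset.mem_univ P), Finset.card_univ, Fintype.card_fin] at h1
  have hn : 0 < n := P.pos
  rwa [Nat.sub_add_cancel hn] at h1

/-- Interpolation determinants in two variables: for `n` distinct points of the plane there are `n`
monomials of degree `< n` with nonzero determinant, such that every family with the same leading
parts up to constants has the expected determinant. -/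
theorem exists_monomials {n : ℕ} (X Y : Fin n → K)
    (hinj : ∀ P Q, P ≠ Q → X P ≠ X Q ∨ Y P ≠ Y Q) :
    ∃ I : Fin n → ℕ × ℕ, (∀ k, (I k).1 + (I k).2 < n) ∧
      (Matrix.of (fun k => X ^ (I k).1 * Y ^ (I k).2)).det ≠ 0 ∧
      (∀ (ψ : Fin n → (Fin n → K)) (c : Fin n → K),
        (∀ k, IsTop K X Y ((I k).1 + (I k).2) (ψ k) (c k • (X ^ (I k).1 * Y ^ (I k).2))) →
        (Matrix.of ψ).det = (∏ k, c k) * (Matrix.of (fun k => X ^ (I k).1 * Y ^ (I k).2)).det) ∧
      ∀ q, (n - tri q) * q ≤ ∑ k, ((I k).1 + (I k).2) := by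
  classical
  set m : ℕ → (Fin n → K) := fun t => X ^ (enum t).1 * Y ^ (enum t).2 with hm
  have hW : ∀ t, W K X Y (edeg t) ≤ span K (m '' {s | s < t}) := by
    intro t
    rw [W, span_le]
    rintro _ ⟨i, j, hij, rfl⟩
    obtain ⟨t', ht', he⟩ := exists_enum hij
    refine subset_span ⟨t', ht', ?_⟩
    simp only [hm, he]
  have hspan : span K (m '' {t | t < tri n}) = ⊤ := by
    rw [eq_top_iff, ← W_top X Y hinj]
    have h1 := hW (tri n)
    have h2 : edeg (tri n) = n := by simpa using edeg_tri (Nat.zero_le n)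
    rwa [h2] at h1
  obtain ⟨J, hJ, hJL, hli, hsp⟩ := exists_greedy m (tri n) n (by simp) hspan
  refine ⟨fun k => enum (J k), fun k => edeg_lt (hJL k), ?_, ?_, ?_⟩
  · exact det_ne_zero_of_li _ hli
  · intro ψ c hψ
    refine det_tri (m ∘ J) ψ c hli (fun k => ?_)
    have h1 := hsp (J k) (hW (J k) (hψ k).1)
    have h2 : m '' (J '' {l | J l < J k}) = (m ∘ J) '' {l | l < k} := by
      rw [Set.image_comp]
      congr 2
      ext l
      exact hJ.lt_iff_lt
    rw [h2] at h1
    exact h1
  · intro q
    have h1 : ∀ k : Fin n, tri q ≤ (k : ℕ) → q ≤ (enum (J k)).1 + (enum (J k)).2 := by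
      intro k hk
      refine le_edeg (hk.trans ?_)
      have h2 : ∀ m (hm : m < n), m ≤ J ⟨m, hm⟩ := by
        intro m
        induction m with
        | zero => intro _; exact Nat.zero_le _
        | succ m ih =>
          intro hm
          have h3 := ih (by omega)
          have h4 : J ⟨m, by omega⟩ < J ⟨m + 1, hm⟩ := hJ (by simp [Fin.lt_def])
          omega
      exact h2 k k.2
    calc (n - tri q) * q = ∑ _k ∈ (Finset.univ.filter (fun k : Fin n => tri q ≤ (k : ℕ))), q := by
          rw [Finset.sum_const, smul_eq_mul]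
          congr 1
          have h2 : (Finset.univ.filter (fun k : Fin n => (k : ℕ) < tri q)).card =
              min n (tri q) := Fin.card_filter_val_lt
          have h3 := Finset.card_filter_add_card_filter_not (s := (Finset.univ : Finset (Fin n)))
            (fun k : Fin n => (k : ℕ) < tri q)
          rw [Finset.card_univ, Fintype.card_fin, h2] at h3
          have h4 : (Finset.univ.filter (fun k : Fin n => tri q ≤ (k : ℕ))) =
              (Finset.univ.filter (fun k : Fin n => ¬ (k : ℕ) < tri q)) := by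
            ext k; simp
          rw [h4]
          omega
      _ ≤ ∑ k ∈ (Finset.univ.filter (fun k : Fin n => tri q ≤ (k : ℕ))),
            ((enum (J k)).1 + (enum (J k)).2) :=
          Finset.sum_le_sum (fun k hk => h1 k (Finset.mem_filter.mp hk).2)
      _ ≤ ∑ k, ((enum (J k)).1 + (enum (J k)).2) :=
          Finset.sum_le_sum_of_subset (Finset.filter_subset _ _)

end Pool.Agent.H.MP_0e6b5f_nt.Dom
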