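import Pool.Agent.H.MP_0e6b5f_nt.Dom.Local

/-!
# The covering argument at a place of bad reduction
-/

namespace Pool.Agent.H.MP_0e6b5f_nt.Dom

open Polynomial

variable {K : Type*} [Field K]

/-- The standing hypotheses at the dominating place. -/
structure Bad {d : ℕ} (ζ : Fin d → K) (δ : K) (v : AbsoluteValue K ℝ) (A R e : ℝ) : Prop where
  hd : 2 ≤ d
  qu : QU v A
  hA : 1 ≤ A
  hR : 1 < R
  hζ : ∀ i, v (ζ i) ≤ R
  hdiam : ∃ i j, R ≤ v (ζ i - ζ j)
  he : 1 ≤ e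
  hδ : v δ ≤ e
  heR : e ^ 4 ≤ R
  hAR : A ^ (40 * d + 80) ≤ R

namespace Bad

variable {d : ℕ} {ζ : Fin d → K} {δ : K} {v : AbsoluteValue K ℝ} {A R e : ℝ}

theorem num (h : Bad ζ δ v A R e) {k : ℕ} (hk : k ≤ 10 * d + 20) : A ^ k * e < R := by
  have hA := h.hA
  have he := h.he
  have hR := h.hR
  apply lt_of_pow_lt_pow_left₀ 4 (by linarith)
  calc (A ^ k * e) ^ 4 = A ^ (4 * k) * e ^ 4 := by rw [mul_pow, ← pow_mul, mul_comm k 4]
    _ ≤ A ^ (40 * d + 80) * e ^ 4 := by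
        apply mul_le_mul_of_nonneg_right _ (by positivity)
        exact pow_le_pow_right₀ hA (by omega)
    _ ≤ R * R := mul_le_mul h.hAR h.heR (by positivity) (by linarith)
    _ = R ^ 2 := by ring
    _ < R ^ 4 := pow_lt_pow_right₀ hR (by norm_num)

theorem e_le (h : Bad ζ δ v A R e) : e ≤ R := by
  have := h.num (k := 0) (by omega)
  rw [pow_zero, one_mul] at this
  exact this.le

theorem fy_le {ι : Type*} [Finite ι] (h : Bad ζ δ v A R e) (O : Orb ζ δ ι) (P : ι) :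
    v ((nf ζ δ).eval (O.y P)) ≤ A ^ (d + 4) * e * R := by
  have hA := h.hA
  have he := h.he
  have hR := h.hR
  have hs := O.size h.hd h.qu h.hA h.hR.le h.hζ (h.hδ.trans h.e_le)
  rw [← O.rel P]
  refine (h.qu _ _).trans ?_
  have hM : 0 ≤ A ^ (d + 3) * R := by positivity
  have h1 : v (O.y (O.σ P)) ≤ e * (A ^ (d + 3) * R) := (hs _).trans (by nlinarith)
  have h2 : v (δ * O.y (O.σ⁻¹ P)) ≤ e * (A ^ (d + 3) * R) := by
    rw [v.map_mul]
    exact mul_le_mul h.hδ (hs _) (v.nonneg _) (by linarith)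
  calc A * max (v (O.y (O.σ P))) (v (δ * O.y (O.σ⁻¹ P))) ≤ A * (e * (A ^ (d + 3) * R)) :=
        mul_le_mul_of_nonneg_left (max_le h1 h2) (by linarith)
    _ = A ^ (d + 4) * e * R := by ring

theorem fz_le (h : Bad ζ δ v A R e) (i : Fin d) :
    v ((nf ζ δ).eval (ζ i)) ≤ A ^ (d + 4) * e * R := by
  have hA := h.hA
  have he := h.he
  have hR := h.hR
  rw [nf_eval, Finset.prod_eq_zero (Finset.mem_univ i) (sub_self _), add_zero, v.map_mul]
  have h1 : v (1 + δ) ≤ A * e := by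
    refine (h.qu 1 δ).trans ?_
    rw [v.map_one]
    exact mul_le_mul_of_nonneg_left (max_le he h.hδ) (by linarith)
  calc v (1 + δ) * v (ζ i) ≤ A * e * R := mul_le_mul h1 (h.hζ i) (v.nonneg _) (by positivity)
    _ ≤ A ^ (d + 4) * e * R := by
        apply mul_le_mul_of_nonneg_right _ (by linarith)
        apply mul_le_mul_of_nonneg_right _ (by linarith)
        calc A = A ^ 1 := (pow_one A).symm
          _ ≤ A ^ (d + 4) := pow_le_pow_right₀ hA (by omega)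

/-- At most `d` points can be pairwise far apart. -/
theorem sep [DecidableEq K] (h : Bad ζ δ v A R e) (s : Finset K)
    (hs : ∀ z ∈ s, v ((nf ζ δ).eval z) ≤ A ^ (d + 4) * e * R)
    (hfar : ∀ z ∈ s, ∀ z' ∈ s, z ≠ z' → ¬ (v (z - z') < R / A ^ 2)) : s.card ≤ d := by
  by_contra hcon
  push Not at hcon
  have hA := h.hA
  have he := h.he
  have hR := h.hR
  obtain ⟨t, ht, htc⟩ := Finset.exists_subset_card_eq (s := s) (n := d + 1) (by omega)
  obtain ⟨hmon, hdeg⟩ := nf_monic h.hd ζ δ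
  obtain ⟨z, hz, hprod⟩ := exists_small_prod h.qu h.hA hmon hdeg t htc
  have hcard : (t.erase z).card = d := by rw [Finset.card_erase_of_mem hz, htc]; rfl
  have hne : (t.erase z).Nonempty := by
    rw [← Finset.card_pos, hcard]
    have := h.hd
    omega
  obtain ⟨z', hz', hpow⟩ := exists_pow_le_of_prod_le (t.erase z) (fun z' => v (z - z')) hne
    (fun _ _ => v.nonneg _) hprod
  rw [hcard] at hpow
  have h1 := hfar z (ht hz) z' (ht (Finset.mem_of_mem_erase hz'))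
    (Finset.ne_of_mem_erase hz').symm
  push Not at h1
  have h2 : (R / A ^ 2) ^ d ≤ A ^ (d + 1) * (A ^ (d + 4) * e * R) := by
    calc (R / A ^ 2) ^ d ≤ v (z - z') ^ d := pow_le_pow_left₀ (by positivity) h1 d
      _ ≤ A ^ (d + 1) * v ((nf ζ δ).eval z) := hpow
      _ ≤ A ^ (d + 1) * (A ^ (d + 4) * e * R) :=
        mul_le_mul_of_nonneg_left (hs z (ht hz)) (by positivity)
  rw [div_pow, div_le_iff₀ (by positivity)] at h2
  have h3 : R ^ d ≤ A ^ (4 * d + 5) * e * R := by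
    calc R ^ d ≤ A ^ (d + 1) * (A ^ (d + 4) * e * R) * (A ^ 2) ^ d := h2
      _ = A ^ (4 * d + 5) * e * R := by ring
  have h4 : A ^ (4 * d + 5) * e * R < R * R :=
    mul_lt_mul_of_pos_right (h.num (by omega)) (by linarith)
  have h5 : R * R ≤ R ^ d := by
    calc R * R = R ^ 2 := by ring
      _ ≤ R ^ d := pow_le_pow_right₀ hR.le h.hd
  linarith

/-- Inside a class at most `d - 1` points can be pairwise far apart at the next scale. -/
theorem sep' [DecidableEq K] (h : Bad ζ δ v A R e) (s : Finset K) (c : K) {θ : ℝ}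
    (hs : ∀ z ∈ s, v ((nf ζ δ).eval z) ≤ A ^ (d + 4) * e * R)
    (hc : ∀ z ∈ s, v (z - c) < R / A ^ 2)
    (hθ : ∀ z ∈ s, ∀ z' ∈ s, v ((nf ζ δ).eval z - (nf ζ δ).eval z') ≤ θ)
    (hfar : ∀ z ∈ s, ∀ z' ∈ s, z ≠ z' → ¬ (v (z - z') ^ (d - 1) ≤ A ^ (d + 3) * θ / R)) :
    s.card ≤ d - 1 := by
  by_contra hcon
  push Not at hcon
  have hd := h.hd
  have hA := h.hA
  have hA0 : 0 < A := by linarith
  have he := h.he
  have hR := h.hR
  obtain ⟨t, ht, htc⟩ := Finset.exists_subset_card_eq (s := s) (n := d) (by omega)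
  obtain ⟨hmon, hdeg⟩ := nf_monic h.hd ζ δ
  have htne : t.Nonempty := by rw [← Finset.card_pos]; omega
  obtain ⟨z₁, hz₁⟩ := htne
  -- a far away root
  obtain ⟨i₁, hi₁⟩ : ∃ i, R / A ≤ v (ζ i - c) := by
    obtain ⟨i, j, hij⟩ := h.hdiam
    have h1 : ζ i - ζ j = (ζ i - c) - (ζ j - c) := by ring
    rw [h1] at hij
    have h2 := hij.trans (h.qu.sub _ _)
    rcases le_total (v (ζ i - c)) (v (ζ j - c)) with h3 | h3
    · rw [max_eq_right h3] at h2
      exact ⟨j, by rw [div_le_iff₀ hA0]; linarith⟩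
    · rw [max_eq_left h3] at h2
      exact ⟨i, by rw [div_le_iff₀ hA0]; linarith⟩
  have hfarz : ∀ z ∈ s, R / A ^ 2 ≤ v (ζ i₁ - z) := by
    intro z hz
    have h1 : ζ i₁ - c = (ζ i₁ - z) + (z - c) := by ring
    rw [h1] at hi₁
    have h2 := hi₁.trans (h.qu _ _)
    have h3 : A * (R / A ^ 2) = R / A := by field_simp
    rcases le_total (v (ζ i₁ - z)) (v (z - c)) with h4 | h4
    · rw [max_eq_right h4] at h2
      have h5 : A * v (z - c) < A * (R / A ^ 2) := mul_lt_mul_of_pos_left (hc z hz) hA0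
      linarith
    · rw [max_eq_left h4] at h2
      rw [← h3] at h2
      exact le_of_mul_le_mul_left h2 hA0
  have hRA : 0 < R / A ^ 2 := by positivity
  have hnot : ζ i₁ ∉ t := by
    intro hmem
    have := hfarz _ (ht hmem)
    rw [sub_self, v.map_zero] at this
    linarith
  have hcard : (insert (ζ i₁) t).card = d + 1 := by rw [Finset.card_insert_of_notMem hnot, htc]
  set G : K[X] := nf ζ δ - C ((nf ζ δ).eval z₁) with hG
  have hGmon : G.Monic := by
    apply hmon.sub_of_left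
    refine lt_of_le_of_lt degree_C_le ?_
    rw [degree_eq_natDegree hmon.ne_zero, hdeg]
    exact_mod_cast (by omega : 0 < d)
  have hGdeg : G.natDegree = d := by rw [hG, natDegree_sub_C, hdeg]
  have hGev : ∀ z, G.eval z = (nf ζ δ).eval z - (nf ζ δ).eval z₁ := by
    intro z; rw [hG, eval_sub, eval_C]
  obtain ⟨z, hz, hprod⟩ := exists_small_prod h.qu h.hA hGmon hGdeg _ hcard
  rw [hGev] at hprod
  rcases Finset.mem_insert.mp hz with rfl | hzt
  · rw [Finset.erase_insert hnot] at hprod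
    have h1 : (R / A ^ 2) ^ d ≤ ∏ z' ∈ t, v (ζ i₁ - z') := by
      rw [← htc, ← Finset.prod_const]
      exact Finset.prod_le_prod (fun _ _ => hRA.le) (fun z' hz' => hfarz z' (ht hz'))
    have h2 : v ((nf ζ δ).eval (ζ i₁) - (nf ζ δ).eval z₁) ≤ A * (A ^ (d + 4) * e * R) :=
      (h.qu.sub _ _).trans
        (mul_le_mul_of_nonneg_left (max_le (h.fz_le i₁) (hs z₁ (ht hz₁))) hA0.le)
    have h3 : (R / A ^ 2) ^ d ≤ A ^ (d + 1) * (A * (A ^ (d + 4) * e * R)) :=
      h1.trans (hprod.trans (mul_le_mul_of_nonneg_left h2 (by positivity)))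
    rw [div_pow, div_le_iff₀ (by positivity)] at h3
    have h4 : R ^ d ≤ A ^ (4 * d + 6) * e * R := by
      calc R ^ d ≤ A ^ (d + 1) * (A * (A ^ (d + 4) * e * R)) * (A ^ 2) ^ d := h3
        _ = A ^ (4 * d + 6) * e * R := by ring
    have h5 : A ^ (4 * d + 6) * e * R < R * R :=
      mul_lt_mul_of_pos_right (h.num (by omega)) (by linarith)
    have h6 : R * R ≤ R ^ d := by
      calc R * R = R ^ 2 := by ring
        _ ≤ R ^ d := pow_le_pow_right₀ hR.le h.hd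
    linarith
  · have hne : z ≠ ζ i₁ := fun hzz => hnot (hzz ▸ hzt)
    have herase : (insert (ζ i₁) t).erase z = insert (ζ i₁) (t.erase z) := by
      rw [Finset.erase_insert_of_ne (Ne.symm hne)]
    have hnot' : ζ i₁ ∉ t.erase z := fun hmem => hnot (Finset.mem_of_mem_erase hmem)
    rw [herase, Finset.prod_insert hnot'] at hprod
    have h1 : R / A ^ 2 ≤ v (z - ζ i₁) := by
      rw [v.map_sub]; exact hfarz z (ht hzt)
    have h2 : 0 ≤ ∏ z' ∈ t.erase z, v (z - z') := Finset.prod_nonneg (fun _ _ => v.nonneg _)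
    have h3 : R / A ^ 2 * ∏ z' ∈ t.erase z, v (z - z') ≤ A ^ (d + 1) * θ :=
      (mul_le_mul_of_nonneg_right h1 h2).trans (hprod.trans
        (mul_le_mul_of_nonneg_left (hθ z (ht hzt) z₁ (ht hz₁)) (by positivity)))
    have h4 : ∏ z' ∈ t.erase z, v (z - z') ≤ A ^ (d + 3) * θ / R := by
      rw [le_div_iff₀ (by linarith)]
      have h5 : R / A ^ 2 * (∏ z' ∈ t.erase z, v (z - z')) * A ^ 2 ≤ A ^ (d + 1) * θ * A ^ 2 :=
        mul_le_mul_of_nonneg_right h3 (by positivity)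
      have h6 : R / A ^ 2 * (∏ z' ∈ t.erase z, v (z - z')) * A ^ 2 =
          (∏ z' ∈ t.erase z, v (z - z')) * R := by field_simp
      rw [h6] at h5
      calc (∏ z' ∈ t.erase z, v (z - z')) * R ≤ A ^ (d + 1) * θ * A ^ 2 := h5
        _ = A ^ (d + 3) * θ := by ring
    have hcard' : (t.erase z).card = d - 1 := by rw [Finset.card_erase_of_mem hzt, htc]
    have hne' : (t.erase z).Nonempty := by
      rw [← Finset.card_pos, hcard']; omega
    obtain ⟨z', hz', hpow⟩ := exists_pow_le_of_prod_le (t.erase z) (fun z' => v (z - z')) hne'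
      (fun _ _ => v.nonneg _) h4
    rw [hcard'] at hpow
    exact hfar z (ht hzt) z' (ht (Finset.mem_of_mem_erase hz'))
      (Finset.ne_of_mem_erase hz').symm hpow

/-- Second stage. -/
theorem stage2 {ι : Type*} (h : Bad ζ δ v A R e) (g : ι → K)
    (hg : ∀ P, v ((nf ζ δ).eval (g P)) ≤ A ^ (d + 4) * e * R) (T : Finset ι) (hT : T.Nonempty)
    {c : K} (hc : ∀ P ∈ T, v (g P - c) < R / A ^ 2) {θ : ℝ} (hθ0 : 0 ≤ θ)
    (hθ : ∀ P ∈ T, ∀ Q ∈ T, v ((nf ζ δ).eval (g P) - (nf ζ δ).eval (g Q)) ≤ θ) :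
    ∃ T' ⊆ T, T'.Nonempty ∧ T.card ≤ (d - 1) * T'.card ∧
      ∀ P ∈ T', ∀ Q ∈ T', v (g P - g Q) ^ (d - 1) ≤ A ^ (2 * d + 2) * θ / R := by
  classical
  have hd := h.hd
  have hA := h.hA
  have hR := h.hR
  obtain ⟨c', hc', T', hT', hcard, hnear⟩ := pigeon T g
    (fun z z' => v (z - z') ^ (d - 1) ≤ A ^ (d + 3) * θ / R)
    (fun z => by
      show v (z - z) ^ (d - 1) ≤ A ^ (d + 3) * θ / R
      rw [sub_self, v.map_zero, zero_pow (by omega)]; positivity)
    (fun z z' hz => by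
      show v (z' - z) ^ (d - 1) ≤ A ^ (d + 3) * θ / R
      rw [v.map_sub]; exact hz) (d - 1) hT
    (fun s hs hfar => by
      refine h.sep' s c (θ := θ) ?_ ?_ ?_ hfar
      · intro z hz
        obtain ⟨P, _, rfl⟩ := Finset.mem_image.mp (hs hz)
        exact hg P
      · intro z hz
        obtain ⟨P, hP, rfl⟩ := Finset.mem_image.mp (hs hz)
        exact hc P hP
      · intro z hz z' hz'
        obtain ⟨P, hP, rfl⟩ := Finset.mem_image.mp (hs hz)
        obtain ⟨Q, hQ, rfl⟩ := Finset.mem_image.mp (hs hz')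
        exact hθ P hP Q hQ)
  refine ⟨T', hT', ?_, hcard, ?_⟩
  · rw [← Finset.card_pos]
    have := Finset.card_pos.mpr hT
    by_contra hcon
    have h0 : T'.card = 0 := by omega
    rw [h0, mul_zero] at hcard
    omega
  · intro P hP Q hQ
    have h1 := hnear P hP
    have h2 := hnear Q hQ
    have h3 : g P - g Q = (g P - g c') - (g Q - g c') := by ring
    have h4 : v (g P - g Q) ≤ A * max (v (g P - g c')) (v (g Q - g c')) := by
      rw [h3]; exact h.qu.sub _ _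
    have h5 : (max (v (g P - g c')) (v (g Q - g c'))) ^ (d - 1) ≤ A ^ (d + 3) * θ / R := by
      rcases le_total (v (g P - g c')) (v (g Q - g c')) with h6 | h6
      · rw [max_eq_right h6]; exact h2
      · rw [max_eq_left h6]; exact h1
    calc v (g P - g Q) ^ (d - 1)
        ≤ (A * max (v (g P - g c')) (v (g Q - g c'))) ^ (d - 1) :=
          pow_le_pow_left₀ (v.nonneg _) h4 _
      _ = A ^ (d - 1) * (max (v (g P - g c')) (v (g Q - g c'))) ^ (d - 1) := mul_pow _ _ _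
      _ ≤ A ^ (d - 1) * (A ^ (d + 3) * θ / R) := mul_le_mul_of_nonneg_left h5 (by positivity)
      _ = A ^ (2 * d + 2) * θ / R := by
          rw [mul_div_assoc', ← mul_assoc, ← pow_add]
          congr 3
          omega

/-- First stage. -/
theorem stage1 {ι : Type*} (h : Bad ζ δ v A R e) (g : ι → K)
    (hg : ∀ P, v ((nf ζ δ).eval (g P)) ≤ A ^ (d + 4) * e * R) (T : Finset ι) (hT : T.Nonempty) :
    ∃ T' ⊆ T, T'.Nonempty ∧ T.card ≤ d * (d - 1) * T'.card ∧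
      ∀ P ∈ T', ∀ Q ∈ T', v (g P - g Q) ≤ A ^ (3 * d + 7) * e := by
  classical
  have hd := h.hd
  have hA := h.hA
  have hA0 : 0 < A := by linarith
  have he := h.he
  have hR := h.hR
  have hRA : 0 < R / A ^ 2 := by positivity
  obtain ⟨c', hc', T₁, hT₁, hcard₁, hnear₁⟩ := pigeon T g
    (fun z z' => v (z - z') < R / A ^ 2)
    (fun z => by
      show v (z - z) < R / A ^ 2
      rw [sub_self, v.map_zero]; exact hRA)
    (fun z z' hz => by
      show v (z' - z) < R / A ^ 2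
      rw [v.map_sub]; exact hz) d hT
    (fun s hs hfar => by
      refine h.sep s ?_ hfar
      intro z hz
      obtain ⟨P, _, rfl⟩ := Finset.mem_image.mp (hs hz)
      exact hg P)
  have hT₁ne : T₁.Nonempty := by
    rw [← Finset.card_pos]
    have := Finset.card_pos.mpr hT
    by_contra hcon
    have h0 : T₁.card = 0 := by omega
    rw [h0, mul_zero] at hcard₁
    omega
  obtain ⟨T₂, hT₂, hT₂ne, hcard₂, hpair⟩ := h.stage2 g hg T₁ hT₁ne (c := g c') hnear₁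
    (θ := A * (A ^ (d + 4) * e * R)) (by positivity)
    (fun P _ Q _ => (h.qu.sub _ _).trans
      (mul_le_mul_of_nonneg_left (max_le (hg P) (hg Q)) hA0.le))
  refine ⟨T₂, hT₂.trans hT₁, hT₂ne, ?_, ?_⟩
  · calc T.card ≤ d * T₁.card := hcard₁
      _ ≤ d * ((d - 1) * T₂.card) := Nat.mul_le_mul_left _ hcard₂
      _ = d * (d - 1) * T₂.card := by ring
  · intro P hP Q hQ
    have h1 := hpair P hP Q hQ
    have h2 : A ^ (2 * d + 2) * (A * (A ^ (d + 4) * e * R)) / R = A ^ (3 * d + 7) * e := by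
      field_simp
      ring
    rw [h2] at h1
    have hone : 1 ≤ A ^ (3 * d + 7) * e := by
      have : 1 ≤ A ^ (3 * d + 7) := one_le_pow₀ hA
      nlinarith
    rcases le_or_gt (v (g P - g Q)) 1 with h3 | h3
    · exact h3.trans hone
    · refine le_trans ?_ h1
      calc v (g P - g Q) = v (g P - g Q) ^ 1 := (pow_one _).symm
        _ ≤ v (g P - g Q) ^ (d - 1) := pow_le_pow_right₀ h3.le (by omega)

/-- The covering statement: a positive proportion of the points of a finite invariant set is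
contained in a small bidisc. -/
theorem cover {ι : Type*} [Fintype ι] [Nonempty ι] (h : Bad ζ δ v A R e) (O : Orb ζ δ ι) :
    ∃ T : Finset ι, T.Nonempty ∧
      Fintype.card ι ≤ (d * (d - 1)) ^ 4 * (d - 1) ^ 2 * T.card ∧
      ∀ P ∈ T, ∀ Q ∈ T, v (O.y P - O.y Q) ^ (d - 1) ≤ A ^ (5 * d + 10) * e ^ 2 / R ∧
        v (O.y (O.σ⁻¹ P) - O.y (O.σ⁻¹ Q)) ^ (d - 1) ≤ A ^ (5 * d + 10) * e ^ 2 / R := by
  classical
  have hd := h.hd
  have hA := h.hA
  have hA0 : 0 < A := by linarith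
  have he := h.he
  have hR := h.hR
  have hy := h.fy_le O
  obtain ⟨T₁, hT₁, hn₁, hc₁, hp₁⟩ := h.stage1 (fun P => O.y (O.σ P)) (fun P => hy _)
    Finset.univ Finset.univ_nonempty
  obtain ⟨T₂, hT₂, hn₂, hc₂, hp₂⟩ := h.stage1 (fun P => O.y P) (fun P => hy _) T₁ hn₁
  obtain ⟨T₃, hT₃, hn₃, hc₃, hp₃⟩ := h.stage1 (fun P => O.y (O.σ⁻¹ P)) (fun P => hy _) T₂ hn₂
  obtain ⟨T₄, hT₄, hn₄, hc₄, hp₄⟩ := h.stage1 (fun P => O.y (O.σ⁻¹ (O.σ⁻¹ P))) (fun P => hy _)
    T₃ hn₃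
  have hsmall : A ^ (3 * d + 7) * e < R / A ^ 2 := by
    rw [lt_div_iff₀ (by positivity)]
    calc A ^ (3 * d + 7) * e * A ^ 2 = A ^ (3 * d + 9) * e := by ring
      _ < R := h.num (by omega)
  have hρ : 0 ≤ A ^ (3 * d + 7) * e := by positivity
  have hdiff : ∀ a b a' b' : K, v (a - a') ≤ A ^ (3 * d + 7) * e →
      v (b - b') ≤ A ^ (3 * d + 7) * e → v ((a + δ * b) - (a' + δ * b')) ≤
      A ^ (3 * d + 8) * e ^ 2 := by
    intro a b a' b' h1 h2
    have h3 : (a + δ * b) - (a' + δ * b') = (a - a') + δ * (b - b') := by ring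
    rw [h3]
    refine (h.qu _ _).trans ?_
    calc A * max (v (a - a')) (v (δ * (b - b'))) ≤ A * (e * (A ^ (3 * d + 7) * e)) := by
          apply mul_le_mul_of_nonneg_left _ hA0.le
          refine max_le (h1.trans (by nlinarith)) ?_
          rw [v.map_mul]
          exact mul_le_mul h.hδ h2 (v.nonneg _) (by linarith)
      _ = A ^ (3 * d + 8) * e ^ 2 := by ring
  obtain ⟨P₀, hP₀⟩ := hn₄
  obtain ⟨T₅, hT₅, hn₅, hc₅, hp₅⟩ := h.stage2 (fun P => O.y P) (fun P => hy _) T₄ ⟨P₀, hP₀⟩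
    (c := O.y P₀) (θ := A ^ (3 * d + 8) * e ^ 2)
    (fun P hP => lt_of_le_of_lt (hp₂ P (hT₃ (hT₄ hP)) P₀ (hT₃ (hT₄ hP₀))) hsmall)
    (by positivity)
    (fun P hP Q hQ => by
      show v ((nf ζ δ).eval (O.y P) - (nf ζ δ).eval (O.y Q)) ≤ _
      rw [← O.rel P, ← O.rel Q]
      exact hdiff _ _ _ _ (hp₁ P (hT₂ (hT₃ (hT₄ hP))) Q (hT₂ (hT₃ (hT₄ hQ))))
        (hp₃ P (hT₄ hP) Q (hT₄ hQ)))
  obtain ⟨P₁, hP₁⟩ := hn₅
  obtain ⟨T₆, hT₆, hn₆, hc₆, hp₆⟩ := h.stage2 (fun P => O.y (O.σ⁻¹ P)) (fun P => hy _) T₅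
    ⟨P₁, hP₁⟩ (c := O.y (O.σ⁻¹ P₁)) (θ := A ^ (3 * d + 8) * e ^ 2)
    (fun P hP => lt_of_le_of_lt (hp₃ P (hT₄ (hT₅ hP)) P₁ (hT₄ (hT₅ hP₁))) hsmall)
    (by positivity)
    (fun P hP Q hQ => by
      show v ((nf ζ δ).eval (O.y (O.σ⁻¹ P)) - (nf ζ δ).eval (O.y (O.σ⁻¹ Q))) ≤ _
      have e1 := O.rel (O.σ⁻¹ P)
      have e2 := O.rel (O.σ⁻¹ Q)
      have e3 : O.σ (O.σ⁻¹ P) = P := O.σ.apply_symm_apply P
      have e4 : O.σ (O.σ⁻¹ Q) = Q := O.σ.apply_symm_apply Q
      rw [e3] at e1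
      rw [e4] at e2
      rw [← e1, ← e2]
      exact hdiff _ _ _ _ (hp₂ P (hT₃ (hT₄ (hT₅ hP))) Q (hT₃ (hT₄ (hT₅ hQ))))
        (hp₄ P (hT₅ hP) Q (hT₅ hQ)))
  have hΓ : A ^ (2 * d + 2) * (A ^ (3 * d + 8) * e ^ 2) / R = A ^ (5 * d + 10) * e ^ 2 / R := by
    congr 1
    ring
  refine ⟨T₆, hn₆, ?_, ?_⟩
  · rw [Finset.card_univ] at hc₁
    calc Fintype.card ι ≤ d * (d - 1) * T₁.card := hc₁
      _ ≤ d * (d - 1) * (d * (d - 1) * T₂.card) := Nat.mul_le_mul_left _ hc₂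
      _ ≤ d * (d - 1) * (d * (d - 1) * (d * (d - 1) * T₃.card)) := by gcongr
      _ ≤ d * (d - 1) * (d * (d - 1) * (d * (d - 1) * (d * (d - 1) * T₄.card))) := by gcongr
      _ ≤ d * (d - 1) * (d * (d - 1) * (d * (d - 1) * (d * (d - 1) *
            ((d - 1) * T₅.card)))) := by gcongr
      _ ≤ d * (d - 1) * (d * (d - 1) * (d * (d - 1) * (d * (d - 1) *
            ((d - 1) * ((d - 1) * T₆.card))))) := by gcongr
      _ = (d * (d - 1)) ^ 4 * (d - 1) ^ 2 * T₆.card := by ring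
  · intro P hP Q hQ
    rw [← hΓ]
    exact ⟨hp₅ P (hT₆ hP) Q (hT₆ hQ), hp₆ P hP Q hQ⟩

end Bad

end Pool.Agent.H.MP_0e6b5f_nt.Dom
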