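import Mathlib

/-!
# Heights and places in extensions of number fields
-/

namespace Pool.Agent.H.MP_0e6b5f_nt.Dom

open NumberField Height IsDedekindDomain HeightOneSpectrum Ideal

variable {K L : Type*} [Field K] [NumberField K] [Field L] [NumberField L] [Algebra K L]

theorem exists_finitePlace_over (L : Type*) [Field L] [NumberField L] [Algebra K L]
    (w : FinitePlace K) :
    ∃ w' : FinitePlace L, ∃ k : ℕ, 1 ≤ k ∧ ∀ x : K, w' (algebraMap K L x) = w x ^ k := by
  set v := w.maximalIdeal with hv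
  have hvmax : v.asIdeal.IsMaximal := v.isMaximal
  obtain ⟨Q, hQmax, hQ⟩ :=
    Ideal.exists_maximal_ideal_liesOver_of_isIntegral (S := 𝓞 L) v.asIdeal
  have hQ0 : Q ≠ ⊥ := Ideal.ne_bot_of_liesOver_of_ne_bot v.ne_bot Q
  set P : HeightOneSpectrum (𝓞 L) := ⟨Q, hQmax.isPrime, hQ0⟩ with hP
  have hPlies : P.asIdeal.LiesOver v.asIdeal := hQ
  have hPmax : P.asIdeal.IsMaximal := hQmax
  set f := P.asIdeal.inertiaDeg (𝓞 K) with hf
  set e := v.asIdeal.ramificationIdx' P.asIdeal with he
  have hnorm : absNorm P.asIdeal = absNorm v.asIdeal ^ f := by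
    rw [← Ideal.absNorm_relNorm (𝓞 K) (𝓞 L), Ideal.relNorm_eq_pow_of_isMaximal P.asIdeal v.asIdeal,
      map_pow]
  have hf1 : 1 ≤ f := by
    rcases Nat.eq_zero_or_pos f with h | h
    · exfalso
      rw [h, pow_zero] at hnorm
      have := one_lt_absNorm P
      omega
    · exact h
  have he1 : 1 ≤ e := Nat.one_le_iff_ne_zero.mpr
    (Ideal.IsDedekindDomain.ramificationIdx'_ne_zero_of_liesOver P.asIdeal v.ne_bot)
  refine ⟨FinitePlace.mk P, e * f, Nat.mul_le_mul he1 hf1, fun x => ?_⟩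
  have h1 : w x = ‖FinitePlace.embedding v x‖ := (FinitePlace.norm_embedding_eq w x).symm
  rw [FinitePlace.mk_apply, h1, FinitePlace.norm_embedding', FinitePlace.norm_embedding',
    ← valuation_liesOver L v P x]
  have h2 : ∀ z : WithZero (Multiplicative ℤ),
      WithZeroMulInt.toNNReal (absNorm_ne_zero P) z =
        (WithZeroMulInt.toNNReal (absNorm_ne_zero v) z) ^ f := by
    intro z
    by_cases hz : z = 0
    · rw [hz, map_zero, map_zero, zero_pow (by omega)]
    · rw [WithZeroMulInt.toNNReal_neg_apply _ hz, WithZeroMulInt.toNNReal_neg_apply _ hz, hnorm]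
      push_cast
      rw [← zpow_natCast, ← zpow_natCast, ← zpow_mul, ← zpow_mul, mul_comm]
  rw [map_pow, h2, ← pow_mul, mul_comm f e]
  push_cast
  rfl

theorem exists_infinitePlace_over (L : Type*) [Field L] [NumberField L] [Algebra K L]
    (w : InfinitePlace K) :
    ∃ w' : InfinitePlace L, ∀ x : K, w' (algebraMap K L x) = w x := by
  have : FiniteDimensional K L := Module.Finite.of_restrictScalars_finite ℚ K L
  obtain ⟨w', hw'⟩ := InfinitePlace.comap_surjective (K := L) w
  refine ⟨w', fun x => ?_⟩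
  rw [← hw']
  rfl

theorem prod_infinitePlace (F : InfinitePlace K → ℝ) :
    ∏ w : InfinitePlace K, F w ^ w.mult = ∏ φ : K →+* ℂ, F (InfinitePlace.mk φ) := by
  classical
  rw [← Finset.prod_fiberwise Finset.univ (fun φ : K →+* ℂ => InfinitePlace.mk φ)]
  refine Finset.prod_congr rfl (fun w _ => ?_)
  rw [Finset.prod_congr rfl (g := fun _ => F w) (fun φ hφ => by
    rw [(Finset.mem_filter.mp hφ).2]), Finset.prod_const]
  congr 1
  rw [← InfinitePlace.card_filter_mk_eq w]

theorem card_extensions (φ : K →+* ℂ) [DecidableEq (K →+* ℂ)] :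
    (Finset.univ.filter (fun ψ : L →+* ℂ => ψ.comp (algebraMap K L) = φ)).card =
      Module.finrank K L := by
  have : FiniteDimensional K L := Module.Finite.of_restrictScalars_finite ℚ K L
  letI : Algebra K ℂ := φ.toAlgebra
  rw [← AlgHom.card K L ℂ, ← Fintype.card_subtype]
  refine Fintype.card_congr
    { toFun := fun ψ => { toRingHom := ψ.1, commutes' := fun x => ?_ }
      invFun := fun ψ => ⟨ψ.toRingHom, ?_⟩
      left_inv := fun ψ => rfl
      right_inv := fun ψ => rfl }
  · exact congrArg (fun g : K →+* ℂ => g x) ψ.2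
  · ext x
    exact ψ.commutes x

theorem arch_part (G : InfinitePlace K → ℝ) (F : InfinitePlace L → ℝ)
    (h : ∀ ψ : L →+* ℂ, F (InfinitePlace.mk ψ) =
      G (InfinitePlace.mk (ψ.comp (algebraMap K L)))) :
    ∏ w : InfinitePlace L, F w ^ w.mult =
      (∏ w : InfinitePlace K, G w ^ w.mult) ^ Module.finrank K L := by
  classical
  rw [prod_infinitePlace, prod_infinitePlace,
    ← Finset.prod_fiberwise Finset.univ (fun ψ : L →+* ℂ => ψ.comp (algebraMap K L)),
    ← Finset.prod_pow]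
  refine Finset.prod_congr rfl (fun φ _ => ?_)
  rw [Finset.prod_congr rfl (g := fun _ => G (InfinitePlace.mk φ)) (fun ψ hψ => by
    rw [h, (Finset.mem_filter.mp hψ).2]), Finset.prod_const]
  congr 1
  convert card_extensions (L := L) φ

theorem fin_part {ι : Type*} [Finite ι] (z : ι → 𝓞 K) (hz : z ≠ 0) :
    ∏ᶠ v : FinitePlace L, ⨆ i, v ((algebraMap (𝓞 K) (𝓞 L) (z i) : 𝓞 L) : L) =
      (∏ᶠ v : FinitePlace K, ⨆ i, v (z i : K)) ^ Module.finrank K L := by
  have h1 := absNorm_mul_finprod_finitePlace_eq_one hz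
  have hz' : (fun i => algebraMap (𝓞 K) (𝓞 L) (z i)) ≠ 0 := by
    intro h
    apply hz
    funext i
    have h2 := congrFun h i
    simp only [Pi.zero_apply] at h2 ⊢
    exact (FaithfulSMul.algebraMap_eq_zero_iff (𝓞 K) (𝓞 L)).mp h2
  have h2 := absNorm_mul_finprod_finitePlace_eq_one hz'
  have h3 : Ideal.span (Set.range (fun i => algebraMap (𝓞 K) (𝓞 L) (z i))) =
      (Ideal.span (Set.range z)).map (algebraMap (𝓞 K) (𝓞 L)) := by
    rw [Ideal.map_span, ← Set.range_comp]; rfl
  rw [h3, Ideal.absNorm_algebraMap, ← IsFractionRing.finrank_eq (𝓞 K) K (𝓞 L) L] at h2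
  have h4 : ((absNorm (Ideal.span (Set.range z)) : ℕ) : ℝ) ≠ 0 := left_ne_zero_of_mul_eq_one h1
  rw [eq_comm, ← mul_right_inj' (pow_ne_zero (Module.finrank K L) h4), ← mul_pow, h1, one_pow]
  push_cast at h2
  exact h2.symm

/-- The height of a tuple in an extension. -/
theorem mulHeight_ext {ι : Type*} [Finite ι] (x : ι → K) :
    mulHeight (fun i => algebraMap K L (x i)) = mulHeight x ^ Module.finrank K L := by
  rcases eq_or_ne x 0 with rfl | hx
  · simp
  obtain ⟨c, hc⟩ := IsLocalization.exist_integer_multiples_of_finite (nonZeroDivisors (𝓞 K)) x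
  choose z hz using hc
  have hc0 : ((c : 𝓞 K) : K) ≠ 0 := by
    have := nonZeroDivisors.coe_ne_zero c
    exact_mod_cast this
  have hxz : ((c : 𝓞 K) : K) • x = fun i => ((z i : 𝓞 K) : K) := by
    funext i
    have h1 := hz i
    rw [Pi.smul_apply, smul_eq_mul]
    rw [Algebra.smul_def] at h1
    exact h1.symm
  have hz0 : z ≠ 0 := by
    intro h
    have h1 : ((c : 𝓞 K) : K) • x ≠ 0 := smul_ne_zero hc0 hx
    apply h1
    rw [hxz, h]
    funext i
    simp
  have hcL : algebraMap K L ((c : 𝓞 K) : K) ≠ 0 := (map_ne_zero _).mpr hc0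
  have hxL : algebraMap K L ((c : 𝓞 K) : K) • (fun i => algebraMap K L (x i)) =
      fun i => ((algebraMap (𝓞 K) (𝓞 L) (z i) : 𝓞 L) : L) := by
    funext i
    have h1 := congrFun hxz i
    rw [Pi.smul_apply, smul_eq_mul] at h1
    rw [Pi.smul_apply, smul_eq_mul, ← map_mul, h1]
    rfl
  rw [← mulHeight_smul_eq_mulHeight x hc0, ← mulHeight_smul_eq_mulHeight _ hcL, hxz, hxL]
  have hn1 : (fun i => ((z i : 𝓞 K) : K)) ≠ 0 := by
    rw [← hxz]; exact smul_ne_zero hc0 hx
  have hn2 : (fun i => ((algebraMap (𝓞 K) (𝓞 L) (z i) : 𝓞 L) : L)) ≠ 0 := by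
    rw [← hxL]
    refine smul_ne_zero hcL ?_
    intro h
    apply hx
    funext i
    have := congrFun h i
    simpa using this
  rw [NumberField.mulHeight_eq hn1, NumberField.mulHeight_eq hn2, mul_pow, fin_part z hz0,
    arch_part (K := K) (L := L) (fun w => ⨆ i, w ((z i : 𝓞 K) : K))
      (fun w => ⨆ i, w ((algebraMap (𝓞 K) (𝓞 L) (z i) : 𝓞 L) : L))]
  intro ψ
  rfl

theorem mulHeight₁_ext (x : K) :
    mulHeight₁ (algebraMap K L x) = mulHeight₁ x ^ Module.finrank K L := by
  rw [mulHeight₁_eq_mulHeight, mulHeight₁_eq_mulHeight, ← mulHeight_ext]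
  congr 1
  funext i
  fin_cases i <;> simp

end Pool.Agent.H.MP_0e6b5f_nt.Dom
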