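import Pool.Agent.H.MP_0e6b5f_nt.Dom.Per
import Pool.Agent.H.MP_0e6b5f_nt.Dom.Ext
import Pool.Agent.H.MP_0e6b5f_nt.Dom.Defs

/-!
# The bound for number fields and their finite extensions
-/

namespace Pool.Agent.H.MP_0e6b5f_nt.Dom

open Height Height.AdmissibleAbsValues Function Real Polynomial NumberField

theorem mono_bound {s t : ℝ} (hs : 1 ≤ s) (hst : s ≤ t) :
    (s * (1 + log s)) ^ 2 ≤ (t * (1 + log t)) ^ 2 := by
  have h1 : 0 ≤ log s := log_nonneg hs
  have h2 : log s ≤ log t := log_le_log (by linarith) hst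
  apply pow_le_pow_left₀ (by positivity)
  exact mul_le_mul hst (by linarith) (by linarith) (by linarith)

theorem cst4_nonneg (d : ℕ) : 0 ≤ cst4 d := by
  unfold cst4
  positivity

/-- The bound for a finite set of periodic points over an extension `L` of `K`. -/
theorem card_le_ext {K : Type*} [Field K] [NumberField K] {L : Type*} [Field L] [NumberField L]
    [Algebra K L] {d : ℕ} (hd : 2 ≤ d) {c δ : K} (hc : c ≠ 0) (hδ : δ ≠ 0) (ζ : Fin d → K)
    (w : AbsoluteValue K ℝ)
    (hw : IsFinitePlace w ∨ (IsInfinitePlace w ∧ 2 ^ (40 * d + 80) ≤ fixedPointDiam w c ζ))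
    (hR : 1 < fixedPointDiam w c ζ)
    (hδ1 : w δ ^ 4 ≤ fixedPointDiam w c ζ) (hδ2 : (w δ)⁻¹ ^ 4 ≤ fixedPointDiam w c ζ)
    (T : Finset (L × L))
    (hT : ∀ P ∈ T, ∃ n, 1 ≤ n ∧ (hen (fixPoly (algebraMap K L c) (algebraMap K L δ)
      (fun i => algebraMap K L (ζ i))) (algebraMap K L δ))^[n] P = P) :
    (T.card : ℝ) ≤ cst4 d *
      ((1 + Module.finrank K L * (Module.finrank ℚ K + fixedPointHeight c δ ζ) /
        log (fixedPointDiam w c ζ)) *
      (1 + log (1 + Module.finrank K L * (Module.finrank ℚ K + fixedPointHeight c δ ζ) /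
        log (fixedPointDiam w c ζ)))) ^ 2 := by
  classical
  have hfd : FiniteDimensional K L := Module.Finite.of_restrictScalars_finite ℚ K L
  set R := fixedPointDiam w c ζ with hRdef
  have hRle : ∀ i j, w (c * (ζ i - ζ j)) ≤ R := fun i j =>
    le_ciSup (f := fun p : Fin d × Fin d => w (c * (ζ p.1 - ζ p.2)))
      (Set.finite_range _).bddAbove (i, j)
  have hne : Nonempty (Fin d × Fin d) := ⟨(⟨0, by omega⟩, ⟨0, by omega⟩)⟩
  have hRge : ∃ i j, R = w (c * (ζ i - ζ j)) := by
    obtain ⟨p, hp⟩ := exists_eq_ciSup_of_finite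
      (f := fun p : Fin d × Fin d => w (c * (ζ p.1 - ζ p.2)))
    exact ⟨p.1, p.2, hp.symm⟩
  -- a place above `w`
  obtain ⟨w', k, hk, hw', hplace⟩ : ∃ (w' : AbsoluteValue L ℝ) (k : ℕ), 1 ≤ k ∧
      (∀ x : K, w' (algebraMap K L x) = w x ^ k) ∧
      (w' ∈ nonarchAbsVal (K := L) ∨
        (w' ∈ archAbsVal (K := L) ∧ 2 ^ (40 * d + 80) ≤ R ^ k)) := by
    rcases hw with hw | ⟨hw, hbig⟩
    · obtain ⟨w0, hw0⟩ := (isFinitePlace_iff w).mp hw
      obtain ⟨w', k, hk, hw'⟩ := exists_finitePlace_over L w0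
      refine ⟨w'.val, k, hk, fun x => ?_, Or.inl w'.isFinitePlace⟩
      rw [← hw0]
      exact hw' x
    · obtain ⟨w0, hw0⟩ : ∃ w0 : InfinitePlace K, w0.val = w := by
        exact ⟨⟨w, hw⟩, rfl⟩
      obtain ⟨w', hw'⟩ := exists_infinitePlace_over L w0
      refine ⟨w'.val, 1, le_rfl, fun x => ?_, Or.inr ⟨?_, by rw [pow_one]; exact hbig⟩⟩
      · rw [← hw0, pow_one]
        exact hw' x
      · exact mem_multisetInfinitePlace.mpr w'.isInfinitePlace
  have hR0 : 0 < R := by linarith
  have hRk : 1 < R ^ k := one_lt_pow₀ hR (by omega)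
  have hRkR : R ≤ R ^ k := by
    calc R = R ^ 1 := (pow_one R).symm
      _ ≤ R ^ k := pow_le_pow_right₀ hR.le hk
  have hwδ : 0 < w δ := w.pos hδ
  have hcomm : ∀ i j, w' (algebraMap K L c * (algebraMap K L (ζ i) - algebraMap K L (ζ j))) =
      w (c * (ζ i - ζ j)) ^ k := by
    intro i j
    rw [← map_sub, ← map_mul, hw']
  have h1 := per_finset_card_le (K := L) hd (c := algebraMap K L c) (δ := algebraMap K L δ)
    ((_root_.map_ne_zero _).mpr hc) ((_root_.map_ne_zero _).mpr hδ) (fun i => algebraMap K L (ζ i)) w'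
    (R := R ^ k) hplace hRk
    (fun i j => by
      rw [hcomm]
      exact pow_le_pow_left₀ (w.nonneg _) (hRle i j) k)
    (by
      obtain ⟨i, j, hij⟩ := hRge
      refine ⟨i, j, ?_⟩
      rw [hcomm, ← hij])
    (by
      rw [hw', ← pow_mul, mul_comm k 4, pow_mul]
      exact pow_le_pow_left₀ (by positivity) hδ1 k)
    (by
      rw [hw', ← inv_pow, ← pow_mul, mul_comm k 4, pow_mul]
      exact pow_le_pow_left₀ (by positivity) hδ2 k) T hT
  refine h1.trans (mul_le_mul_of_nonneg_left ?_ (cst4_nonneg d))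
  have htup : (tup (fun i => algebraMap K L c * algebraMap K L (ζ i)) :
      Option (Fin d × Fin d) → L) = fun o => algebraMap K L (fixedPointTuple c ζ o) := by
    funext o
    cases o with
    | none => simp [tup, fixedPointTuple]
    | some p => simp [tup, fixedPointTuple]; ring
  have hdeg : (totalWeight L : ℝ) = Module.finrank K L * Module.finrank ℚ K := by
    rw [totalWeight_eq_finrank, ← Module.finrank_mul_finrank ℚ K L]
    push_cast
    ring
  have hlog : log (mulHeight (tup (fun i => algebraMap K L c * algebraMap K L (ζ i))) *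
      mulHeight₁ (algebraMap K L δ)) = Module.finrank K L * fixedPointHeight c δ ζ := by
    rw [htup, mulHeight_ext (L := L) (fixedPointTuple c ζ), mulHeight₁_ext (L := L) δ, ← mul_pow,
      log_pow, log_mul (mulHeight_ne_zero _) (mulHeight₁_ne_zero _)]
    rfl
  rw [hdeg, hlog, ← mul_add]
  have hh : 0 ≤ fixedPointHeight c δ ζ :=
    add_nonneg (logHeight_nonneg _) (zero_le_logHeight₁ _)
  have hlogR : 0 < log R := log_pos hR
  have hlogRk : log R ≤ log (R ^ k) := log_le_log hR0 hRkR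
  have hnum : (0 : ℝ) ≤ Module.finrank K L *
      (Module.finrank ℚ K + fixedPointHeight c δ ζ) := by positivity
  apply mono_bound
  · have : 0 ≤ ((Module.finrank K L : ℝ) *
      (Module.finrank ℚ K + fixedPointHeight c δ ζ)) / log (R ^ k) :=
      div_nonneg hnum (by linarith)
    linarith
  · have h2 : ((Module.finrank K L : ℝ) *
      (Module.finrank ℚ K + fixedPointHeight c δ ζ)) / log (R ^ k) ≤
      ((Module.finrank K L : ℝ) *
      (Module.finrank ℚ K + fixedPointHeight c δ ζ)) / log R :=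
      div_le_div_of_nonneg_left hnum hlogR hlogRk
    linarith

theorem henon_coe {K : Type*} [Field K] (F : K[X]) (δ : K)
    (L : IntermediateField K (AlgebraicClosure K)) (G : L[X]) (hG : G = F.map (algebraMap K L))
    (P : L × L) :
    henon F δ ((P.1 : AlgebraicClosure K), (P.2 : AlgebraicClosure K)) =
      (((hen G (algebraMap K L δ) P).1 : AlgebraicClosure K),
        ((hen G (algebraMap K L δ) P).2 : AlgebraicClosure K)) := by
  subst hG
  simp only [henon, hen, Prod.mk.injEq, true_and]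
  have h1 : ((eval P.2 (F.map (algebraMap K L)) : L) : AlgebraicClosure K) =
      aeval (P.2 : AlgebraicClosure K) F := by
    rw [eval_map_algebraMap]
    exact (aeval_algHom_apply (L.val) P.2 F).symm
  rw [← h1]
  rfl

theorem henon_iterate_coe {K : Type*} [Field K] (F : K[X]) (δ : K)
    (L : IntermediateField K (AlgebraicClosure K)) (G : L[X]) (hG : G = F.map (algebraMap K L))
    (n : ℕ) (P : L × L) :
    (henon F δ)^[n] ((P.1 : AlgebraicClosure K), (P.2 : AlgebraicClosure K)) =
      ((((hen G (algebraMap K L δ))^[n] P).1 : AlgebraicClosure K),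
        (((hen G (algebraMap K L δ))^[n] P).2 : AlgebraicClosure K)) := by
  induction n with
  | zero => rfl
  | succ n ih =>
    rw [iterate_succ_apply', iterate_succ_apply', ih, henon_coe F δ L G hG]

/-- The main bound. -/
theorem main_bound {d : ℕ} (hd : 2 ≤ d) {K : Type*} [Field K] [NumberField K] {c δ : K}
    (hc : c ≠ 0) (hδ : δ ≠ 0) (ζ : Fin d → K) (w : AbsoluteValue K ℝ)
    (hw : IsFinitePlace w ∨ (IsInfinitePlace w ∧ 2 ^ (40 * d + 80) ≤ fixedPointDiam w c ζ))
    (hR : 1 < fixedPointDiam w c ζ)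
    (hδ1 : w δ ^ 4 ≤ fixedPointDiam w c ζ) (hδ2 : (w δ)⁻¹ ^ 4 ≤ fixedPointDiam w c ζ)
    (L : IntermediateField K (AlgebraicClosure K)) (hL : FiniteDimensional K L) :
    (perIn (fixedPointForm c δ ζ) δ L).Finite ∧
    ((perIn (fixedPointForm c δ ζ) δ L).ncard : ℝ) ≤ cst4 d *
      ((1 + Module.finrank K L * (Module.finrank ℚ K + fixedPointHeight c δ ζ) /
        log (fixedPointDiam w c ζ)) *
      (1 + log (1 + Module.finrank K L * (Module.finrank ℚ K + fixedPointHeight c δ ζ) /
        log (fixedPointDiam w c ζ)))) ^ 2 := by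
  classical
  have hfdL : FiniteDimensional ℚ L := FiniteDimensional.trans ℚ K L
  have hnf : NumberField L := { to_charZero := inferInstance, to_finiteDimensional := hfdL }
  apply finite_of_finset_card_le
  intro T hT
  set G : L[X] := fixPoly (algebraMap K L c) (algebraMap K L δ)
      (fun i => algebraMap K L (ζ i)) with hG
  have hGmap : G = (fixedPointForm c δ ζ).map (algebraMap K L) := by
    rw [hG, fixPoly, fixedPointForm]
    simp [Polynomial.map_prod]
  -- lift the points to `L`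
  have hmem1 : ∀ P ∈ T, P.1 ∈ L := fun P hP => (hT P hP).1
  have hmem2 : ∀ P ∈ T, P.2 ∈ L := fun P hP => (hT P hP).2.1
  set T' : Finset (L × L) := T.attach.image
    (fun P => ((⟨P.1.1, hmem1 P.1 P.2⟩, ⟨P.1.2, hmem2 P.1 P.2⟩) : L × L)) with hT'
  have hcard : T'.card = T.card := by
    rw [hT', Finset.card_image_of_injective, Finset.card_attach]
    intro P Q h
    have h1 := congrArg (fun q : L × L => (q.1 : AlgebraicClosure K)) h
    have h2 := congrArg (fun q : L × L => (q.2 : AlgebraicClosure K)) h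
    apply Subtype.ext
    exact Prod.ext h1 h2
  rw [← hcard]
  apply card_le_ext hd hc hδ ζ w hw hR hδ1 hδ2 T'
  intro Q hQ
  rw [hT', Finset.mem_image] at hQ
  obtain ⟨P, -, rfl⟩ := hQ
  obtain ⟨-, -, n, hn, hper⟩ := hT P.1 P.2
  refine ⟨n, hn, ?_⟩
  have h1 := henon_iterate_coe (fixedPointForm c δ ζ) δ L G hGmap n
    ((⟨P.1.1, hmem1 P.1 P.2⟩, ⟨P.1.2, hmem2 P.1 P.2⟩) : L × L)
  have h2 : (henon (fixedPointForm c δ ζ) δ)^[n] (P.1.1, P.1.2) = (P.1.1, P.1.2) := hper
  rw [h2] at h1
  rw [Prod.mk.injEq] at h1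
  apply Prod.ext
  · exact Subtype.ext h1.1.symm
  · exact Subtype.ext h1.2.symm

end Pool.Agent.H.MP_0e6b5f_nt.Dom
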