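import Pool.Agent.H.MP_0e6b5f_nt.Dom.DetMain

/-!
# The product formula argument
-/

namespace Pool.Agent.H.MP_0e6b5f_nt.Dom

open Height Height.AdmissibleAbsValues Function

variable {K : Type*} [Field K] [AdmissibleAbsValues K]

/-- The product formula together with local upper bounds, one of which can be improved. -/
theorem global_step (g : K) (hg : g ≠ 0) (w : AbsoluteValue K ℝ)
    (hw : w ∈ nonarchAbsVal (K := K) ∨ w ∈ archAbsVal (K := K)) (ba bn : AbsoluteValue K ℝ → ℝ)
    (G : ℝ) (hG : 0 ≤ G) (ha : ∀ v ∈ archAbsVal (K := K), v g ≤ ba v)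
    (hn : ∀ v ∈ nonarchAbsVal (K := K), v g ≤ bn v)
    (hwa : w ∈ archAbsVal (K := K) → w g ≤ G * ba w)
    (hwn : w ∈ nonarchAbsVal (K := K) → w g ≤ G * bn w)
    (hfin : (fun v : nonarchAbsVal (K := K) => bn v.val).HasFiniteMulSupport) :
    1 ≤ G * ((archAbsVal.map ba).prod * ∏ᶠ v : nonarchAbsVal (K := K), bn v.val) := by
  classical
  rw [← product_formula hg]
  have hba : ∀ v ∈ archAbsVal (K := K), 0 ≤ ba v := fun v hv => (v.nonneg g).trans (ha v hv)
  have hbn : ∀ v : nonarchAbsVal (K := K), 0 ≤ bn v.val :=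
    fun v => (v.val.nonneg g).trans (hn v.val v.property)
  have hfg : (fun v : nonarchAbsVal (K := K) => v.val g).HasFiniteMulSupport :=
    hasFiniteMulSupport hg
  have hA : (archAbsVal.map (fun v : AbsoluteValue K ℝ => v g)).prod ≤ (archAbsVal.map ba).prod :=
    Multiset.prod_map_le_prod_map₀ _ _ (fun v _ => v.nonneg g) ha
  have hN : (∏ᶠ v : nonarchAbsVal (K := K), v.val g) ≤
      ∏ᶠ v : nonarchAbsVal (K := K), bn v.val :=
    finprod_le_finprod hfg (fun v => v.val.nonneg g) hfin (fun v => hn v.val v.property)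
  have hA0 : 0 ≤ (archAbsVal.map (fun v : AbsoluteValue K ℝ => v g)).prod :=
    Multiset.prod_nonneg (by
      intro a ha'
      obtain ⟨v, -, rfl⟩ := Multiset.mem_map.mp ha'
      exact v.nonneg g)
  have hN0 : 0 ≤ ∏ᶠ v : nonarchAbsVal (K := K), v.val g :=
    finprod_nonneg (fun v => v.val.nonneg g)
  have hbN0 : 0 ≤ ∏ᶠ v : nonarchAbsVal (K := K), bn v.val := finprod_nonneg hbn
  have hbA0 : 0 ≤ (archAbsVal.map ba).prod := Multiset.prod_nonneg (by
      intro a ha'
      obtain ⟨v, hv, rfl⟩ := Multiset.mem_map.mp ha'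
      exact hba v hv)
  rcases hw with hw | hw
  · -- nonarchimedean place
    have hite : (fun v : nonarchAbsVal (K := K) =>
        if v = ⟨w, hw⟩ then G else 1).HasFiniteMulSupport := by
      refine (Set.finite_singleton (⟨w, hw⟩ : nonarchAbsVal (K := K))).subset ?_
      intro v hv
      by_contra hcon
      apply hv
      exact if_neg (fun h => hcon (by rw [h]; exact Set.mem_singleton _))
    have h1 : (∏ᶠ v : nonarchAbsVal (K := K), v.val g) ≤
        ∏ᶠ v : nonarchAbsVal (K := K), ((if v = ⟨w, hw⟩ then G else 1) * bn v.val) := by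
      refine finprod_le_finprod hfg (fun v => v.val.nonneg g) (hite.fun_mul hfin) (fun v => ?_)
      show v.val g ≤ (if v = ⟨w, hw⟩ then G else 1) * bn v.val
      split_ifs with h
      · subst h; exact hwn hw
      · rw [one_mul]; exact hn v.val v.property
    rw [finprod_mul_distrib hite hfin, finprod_eq_single _ (⟨w, hw⟩ : nonarchAbsVal (K := K))
      (fun v hv => if_neg hv), if_pos rfl] at h1
    calc (archAbsVal.map (fun v : AbsoluteValue K ℝ => v g)).prod *
          ∏ᶠ v : nonarchAbsVal (K := K), v.val g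
        ≤ (archAbsVal.map ba).prod * (G * ∏ᶠ v : nonarchAbsVal (K := K), bn v.val) :=
          mul_le_mul hA h1 hN0 hbA0
      _ = G * ((archAbsVal.map ba).prod * ∏ᶠ v : nonarchAbsVal (K := K), bn v.val) := by ring
  · -- archimedean place
    have h1 : (archAbsVal.map (fun v : AbsoluteValue K ℝ => v g)).prod ≤
        G * (archAbsVal.map ba).prod := by
      rw [← Multiset.cons_erase hw, Multiset.map_cons, Multiset.map_cons, Multiset.prod_cons,
        Multiset.prod_cons, ← mul_assoc]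
      refine mul_le_mul (hwa hw) (Multiset.prod_map_le_prod_map₀ _ _ (fun v _ => v.nonneg g)
        (fun v hv => ha v (Multiset.mem_of_mem_erase hv))) ?_ ?_
      · refine Multiset.prod_nonneg ?_
        intro a ha'
        obtain ⟨v, -, rfl⟩ := Multiset.mem_map.mp ha'
        exact v.nonneg g
      · exact mul_nonneg hG (hba w hw)
    calc (archAbsVal.map (fun v : AbsoluteValue K ℝ => v g)).prod *
          ∏ᶠ v : nonarchAbsVal (K := K), v.val g
        ≤ (G * (archAbsVal.map ba).prod) * ∏ᶠ v : nonarchAbsVal (K := K), bn v.val :=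
          mul_le_mul h1 hN hN0 (mul_nonneg hG hbA0)
      _ = G * ((archAbsVal.map ba).prod * ∏ᶠ v : nonarchAbsVal (K := K), bn v.val) := by ring

/-- The tuple `(1, ζ_i - ζ_j)`. -/
def tup {d : ℕ} (ζ : Fin d → K) : Option (Fin d × Fin d) → K :=
  fun o => o.elim 1 (fun p => ζ p.1 - ζ p.2)

/-- Local height of the tuple. -/
noncomputable def loc {d : ℕ} (ζ : Fin d → K) (v : AbsoluteValue K ℝ) : ℝ := ⨆ o, v (tup ζ o)

omit [AdmissibleAbsValues K] in
theorem le_loc {d : ℕ} (ζ : Fin d → K) (v : AbsoluteValue K ℝ) (i j : Fin d) :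
    v (ζ i - ζ j) ≤ loc ζ v :=
  le_ciSup (f := fun o => v (tup ζ o)) (Set.finite_range _).bddAbove (some (i, j))

omit [AdmissibleAbsValues K] in
theorem one_le_loc {d : ℕ} (ζ : Fin d → K) (v : AbsoluteValue K ℝ) : 1 ≤ loc ζ v := by
  have h1 := le_ciSup (f := fun o => v (tup ζ o)) (Set.finite_range _).bddAbove none
  have h2 : v (tup ζ none) = 1 := by simp [tup]
  rw [h2] at h1
  exact h1

theorem loc_fin {d : ℕ} (ζ : Fin d → K) :
    (fun v : nonarchAbsVal (K := K) => loc ζ v.val).HasFiniteMulSupport := by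
  classical
  have h : (⋃ o : Option (Fin d × Fin d), (if tup ζ o = 0 then (∅ : Set (nonarchAbsVal (K := K)))
      else mulSupport (fun v : nonarchAbsVal (K := K) => v.val (tup ζ o)))).Finite := by
    apply Set.finite_iUnion
    intro o
    split_ifs with h
    · exact Set.finite_empty
    · exact hasFiniteMulSupport h
  refine h.subset ?_
  intro v hv
  by_contra hcon
  apply hv
  show loc ζ v.val = 1
  apply le_antisymm _ (one_le_loc ζ v.val)
  apply ciSup_le
  intro o
  rw [Set.mem_iUnion] at hcon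
  push Not at hcon
  have h1 := hcon o
  split_ifs at h1 with h2
  · rw [h2, map_zero]; exact zero_le_one
  · rw [notMem_mulSupport] at h1
    exact h1.le

theorem mulHeight_tup {d : ℕ} (ζ : Fin d → K) :
    mulHeight (tup ζ) = (archAbsVal.map (fun v => loc ζ v)).prod *
      ∏ᶠ v : nonarchAbsVal (K := K), loc ζ v.val := by
  apply mulHeight_eq
  intro h
  have := congrFun h none
  simp [tup] at this

theorem max_fin (x : K) :
    (fun v : nonarchAbsVal (K := K) => max (v.val x) 1).HasFiniteMulSupport := by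
  rcases eq_or_ne x 0 with rfl | hx
  · have : (fun v : nonarchAbsVal (K := K) => max (v.val (0 : K)) 1) = fun _ => 1 := by
      funext v; simp
    rw [this]
    exact hasFiniteMulSupport_one
  · refine (hasFiniteMulSupport hx).subset ?_
    intro v hv
    by_contra hcon
    apply hv
    rw [notMem_mulSupport] at hcon
    show max (v.val x) 1 = 1
    rw [hcon]; simp

/-- Product of the local bounds. -/
theorem bounds_prod {d : ℕ} (ζ : Fin d → K) {δ : K} (hδ : δ ≠ 0) (c : ℝ) (E' T k : ℕ) :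
    (archAbsVal.map (fun v : AbsoluteValue K ℝ =>
        c * (v δ ^ E' * (2 ^ k * (loc ζ v * max (v δ) 1)) ^ T))).prod *
      ∏ᶠ v : nonarchAbsVal (K := K), (v.val δ ^ E' * (loc ζ v.val * max (v.val δ) 1) ^ T) =
    (c * 2 ^ (k * T)) ^ totalWeight K * (mulHeight (tup ζ) * mulHeight₁ δ) ^ T := by
  have h1 : ∏ᶠ v : nonarchAbsVal (K := K), (v.val δ ^ E' * (loc ζ v.val * max (v.val δ) 1) ^ T) =
      (∏ᶠ v : nonarchAbsVal (K := K), v.val δ) ^ E' *
        ((∏ᶠ v : nonarchAbsVal (K := K), loc ζ v.val) *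
          ∏ᶠ v : nonarchAbsVal (K := K), max (v.val δ) 1) ^ T := by
    have hδf : (fun v : nonarchAbsVal (K := K) => v.val δ).HasFiniteMulSupport :=
      hasFiniteMulSupport hδ
    have hl := loc_fin (K := K) ζ
    have hm := max_fin (K := K) δ
    rw [finprod_mul_distrib (hδf.fun_pow E') ((hl.fun_mul hm).fun_pow T), ← finprod_pow hδf,
      ← finprod_pow (hl.fun_mul hm), finprod_mul_distrib hl hm]
  have h2 : (archAbsVal.map (fun v : AbsoluteValue K ℝ =>
        c * (v δ ^ E' * (2 ^ k * (loc ζ v * max (v δ) 1)) ^ T))).prod =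
      (c * 2 ^ (k * T)) ^ totalWeight K * ((archAbsVal.map (fun v => v δ)).prod ^ E' *
        ((archAbsVal.map (fun v => loc ζ v)).prod *
          (archAbsVal.map (fun v => max (v δ) 1)).prod) ^ T) := by
    have e1 : (fun v : AbsoluteValue K ℝ =>
        c * (v δ ^ E' * (2 ^ k * (loc ζ v * max (v δ) 1)) ^ T)) =
        fun v => (c * 2 ^ (k * T)) * (v δ ^ E' * (loc ζ v * max (v δ) 1) ^ T) := by
      funext v
      rw [mul_pow (2 ^ k : ℝ), ← pow_mul]; ring
    rw [e1]
    generalize c * 2 ^ (k * T) = c'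
    rw [Multiset.prod_map_mul, Multiset.prod_map_mul, Multiset.prod_map_pow,
      Multiset.prod_map_pow, Multiset.prod_map_mul, Multiset.map_const', Multiset.prod_replicate]
    rfl
  rw [h1, h2, mulHeight_tup, mulHeight₁_eq]
  have h3 := product_formula (K := K) hδ
  calc (c * 2 ^ (k * T)) ^ totalWeight K * ((archAbsVal.map (fun v => v δ)).prod ^ E' *
        ((archAbsVal.map (fun v => loc ζ v)).prod *
          (archAbsVal.map (fun v => max (v δ) 1)).prod) ^ T) *
      ((∏ᶠ v : nonarchAbsVal (K := K), v.val δ) ^ E' *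
        ((∏ᶠ v : nonarchAbsVal (K := K), loc ζ v.val) *
          ∏ᶠ v : nonarchAbsVal (K := K), max (v.val δ) 1) ^ T)
      = (c * 2 ^ (k * T)) ^ totalWeight K *
        ((archAbsVal.map (fun v : AbsoluteValue K ℝ => v δ)).prod *
          ∏ᶠ v : nonarchAbsVal (K := K), v.val δ) ^ E' *
        ((archAbsVal.map (fun v => loc ζ v)).prod *
          (archAbsVal.map (fun v => max (v δ) 1)).prod *
          ((∏ᶠ v : nonarchAbsVal (K := K), loc ζ v.val) *
          ∏ᶠ v : nonarchAbsVal (K := K), max (v.val δ) 1)) ^ T := by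
        rw [mul_pow (archAbsVal.map (fun v : AbsoluteValue K ℝ => v δ)).prod,
          mul_pow ((archAbsVal.map (fun v => loc ζ v)).prod *
          (archAbsVal.map (fun v => max (v δ) 1)).prod)]
        ring
    _ = _ := by
        rw [h3, one_pow, mul_one]
        congr 2
        ring

/-- The fundamental inequality. -/
theorem fundamental {d : ℕ} (hd : 2 ≤ d) {ζ : Fin d → K} {i₀ : Fin d} (hi₀ : ζ i₀ = 0) {δ : K}
    (hδ : δ ≠ 0) {ι : Type*} [Finite ι]
    (O : Orb ζ δ ι) (hinj : ∀ P Q, O.y P = O.y Q → O.y (O.σ⁻¹ P) = O.y (O.σ⁻¹ Q) → P = Q)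
    (T : Finset ι) (L : ℕ) (hL : T.card ≤ d ^ L) (w : AbsoluteValue K ℝ)
    (hw : w ∈ nonarchAbsVal (K := K) ∨ w ∈ archAbsVal (K := K)) {ρ : ℝ} (hρ : 0 ≤ ρ)
    (hclose : ∀ P ∈ T, ∀ Q ∈ T, w (O.y P - O.y Q) ≤ ρ ∧ w (O.y (O.σ⁻¹ P) - O.y (O.σ⁻¹ Q)) ≤ ρ) :
    ∃ E E' : ℕ, (d - 1) * E' ≤ E ∧ (∀ q, (T.card - tri q) * q ≤ E) ∧
      1 ≤ (ρ ^ E * (w δ ^ E')⁻¹) *
        (((T.card.factorial : ℝ) * 2 ^ ((d + 3) * (2 * (d - 1) * L * T.card))) ^ totalWeight K *
          (mulHeight (tup ζ) * mulHeight₁ δ) ^ (2 * (d - 1) * L * T.card)) := by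
  obtain ⟨g, E, E', hg, hEE, hE, hgen, hspec⟩ := det_main hd hδ O hinj T L hL
  refine ⟨E, E', hEE, hE, ?_⟩
  set T' := 2 * (d - 1) * L * T.card with hT'
  have hζ : ∀ (v : AbsoluteValue K ℝ) i, v (ζ i) ≤ loc ζ v * max (v δ) 1 := by
    intro v i
    have h1 := le_loc ζ v i i₀
    rw [hi₀, sub_zero] at h1
    have h2 : 1 ≤ max (v δ) 1 := le_max_right _ _
    have h3 := one_le_loc ζ v
    nlinarith
  have hδv : ∀ v : AbsoluteValue K ℝ, v δ ≤ loc ζ v * max (v δ) 1 := by
    intro v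
    have h1 : v δ ≤ max (v δ) 1 := le_max_left _ _
    have h2 : 1 ≤ max (v δ) 1 := le_max_right _ _
    have h3 := one_le_loc ζ v
    nlinarith
  have hB : ∀ v : AbsoluteValue K ℝ, 1 ≤ loc ζ v * max (v δ) 1 := by
    intro v
    have h2 : 1 ≤ max (v δ) 1 := le_max_right _ _
    have h3 := one_le_loc ζ v
    nlinarith
  have hMa : ∀ v : AbsoluteValue K ℝ, (1 : ℝ) ≤ 2 ^ (d + 3) * (loc ζ v * max (v δ) 1) := by
    intro v
    have h1 : (1 : ℝ) ≤ 2 ^ (d + 3) := one_le_pow₀ (by norm_num)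
    have h2 := hB v
    nlinarith
  have hwδ : 0 < w δ := w.pos hδ
  have hG0 : 0 ≤ ρ ^ E * (w δ ^ E')⁻¹ := by positivity
  rw [← bounds_prod ζ hδ (T.card.factorial : ℝ) E' T' (d + 3)]
  apply global_step g hg w hw (fun v => (T.card.factorial : ℝ) *
    (v δ ^ E' * (2 ^ (d + 3) * (loc ζ v * max (v δ) 1)) ^ T'))
    (fun v => v δ ^ E' * (loc ζ v * max (v δ) 1) ^ T') _ hG0
  · intro v _
    exact hgen v _ _ (hMa v) (O.size hd (QU.of_two v) (by norm_num) (hB v) (hζ v) (hδv v))
      (Or.inl rfl)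
  · intro v hv
    have hna := isNonarchimedean v hv
    have h1 := hgen v (loc ζ v * max (v δ) 1) 1 (hB v)
      (fun P => by
        have := O.size hd (QU.of_nonarch hna) le_rfl (hB v) (hζ v) (hδv v) P
        rwa [one_pow, one_mul] at this)
      (Or.inr ⟨hna, rfl⟩)
    rwa [one_mul] at h1
  · intro _
    have h1 := hspec w ρ _ hρ hclose (Or.inl rfl)
    refine h1.trans ?_
    have h2 : (1 : ℝ) ≤ (2 ^ (d + 3) * (loc ζ w * max (w δ) 1)) ^ T' := one_le_pow₀ (hMa w)
    have h3 : ρ ^ E * (w δ ^ E')⁻¹ * ((T.card.factorial : ℝ) *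
        (w δ ^ E' * (2 ^ (d + 3) * (loc ζ w * max (w δ) 1)) ^ T')) =
        ((T.card.factorial : ℝ) * ρ ^ E) * (2 ^ (d + 3) * (loc ζ w * max (w δ) 1)) ^ T' := by
      field_simp
    rw [h3]
    exact le_mul_of_one_le_right (by positivity) h2
  · intro hw'
    have hna := isNonarchimedean w hw'
    have h1 := hspec w ρ 1 hρ hclose (Or.inr ⟨hna, rfl⟩)
    rw [one_mul] at h1
    refine h1.trans ?_
    have h2 : (1 : ℝ) ≤ (loc ζ w * max (w δ) 1) ^ T' := one_le_pow₀ (hB w)
    have h3 : ρ ^ E * (w δ ^ E')⁻¹ * (w δ ^ E' * (loc ζ w * max (w δ) 1) ^ T') =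
        ρ ^ E * (loc ζ w * max (w δ) 1) ^ T' := by
      field_simp
    rw [h3]
    exact le_mul_of_one_le_right (by positivity) h2
  · have hδf : (fun v : nonarchAbsVal (K := K) => v.val δ).HasFiniteMulSupport :=
      hasFiniteMulSupport hδ
    exact (hδf.fun_pow E').fun_mul (((loc_fin ζ).fun_mul (max_fin δ)).fun_pow T')

end Pool.Agent.H.MP_0e6b5f_nt.Dom
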