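import Mathlib

/-!
# Greedy bases and triangular changes of families
-/

namespace Pool.Agent.H.MP_0e6b5f_nt.Dom

open Module Submodule

variable {K E : Type*} [Field K] [AddCommGroup E] [Module K E]

/-- Greedy selection of a basis from a spanning sequence. -/
theorem exists_greedy [FiniteDimensional K E] (m : ℕ → E) (L n : ℕ) (hn : finrank K E = n)
    (hspan : span K (m '' {t | t < L}) = ⊤) :
    ∃ J : Fin n → ℕ, StrictMono J ∧ (∀ k, J k < L) ∧ LinearIndependent K (m ∘ J) ∧
      ∀ t, span K (m '' {s | s < t}) ≤ span K (m '' (J '' {k | J k < t})) := by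
  classical
  set s : Finset ℕ := (Finset.range L).filter (fun t => m t ∉ span K (m '' {u | u < t})) with hs
  have hA : ∀ t, t ≤ L → span K (m '' {u | u < t}) ≤ span K (m '' {u | u ∈ s ∧ u < t}) := by
    intro t
    induction t with
    | zero => intro _; simp
    | succ t ih =>
      intro ht
      have h1 := ih (by omega)
      have hmono : span K (m '' {u | u ∈ s ∧ u < t}) ≤ span K (m '' {u | u ∈ s ∧ u < t + 1}) := by
        apply span_mono
        apply Set.image_mono
        rintro u ⟨h2, h3⟩
        exact ⟨h2, by omega⟩
      rw [span_le]
      rintro _ ⟨u, hu, rfl⟩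
      rcases Nat.lt_succ_iff_lt_or_eq.mp hu with h | h
      · exact hmono (h1 (subset_span ⟨u, h, rfl⟩))
      · subst h
        by_cases hus : u ∈ s
        · exact subset_span ⟨u, ⟨hus, by omega⟩, rfl⟩
        · have : m u ∈ span K (m '' {v | v < u}) := by
            by_contra hcon
            exact hus (by simp only [hs, Finset.mem_filter, Finset.mem_range]; exact ⟨by omega, hcon⟩)
          exact hmono (h1 this)
  have hB : ∀ t, (s.filter (fun u => u < t)).card ≤ finrank K (span K (m '' {u | u < t})) := by
    intro t
    induction t with
    | zero => simp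
    | succ t ih =>
      have hle : span K (m '' {u | u < t}) ≤ span K (m '' {u | u < t + 1}) := by
        apply span_mono
        apply Set.image_mono
        intro u hu
        have : u < t := hu
        show u < t + 1
        omega
      by_cases hts : t ∈ s
      · have h1 : s.filter (fun u => u < t + 1) = insert t (s.filter (fun u => u < t)) := by
          ext u
          simp only [Finset.mem_filter, Finset.mem_insert]
          constructor
          · rintro ⟨h2, h3⟩
            rcases Nat.lt_succ_iff_lt_or_eq.mp h3 with h | h
            · exact Or.inr ⟨h2, h⟩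
            · exact Or.inl h
          · rintro (h | ⟨h2, h3⟩)
            · subst h; exact ⟨hts, by omega⟩
            · exact ⟨h2, by omega⟩
        have h2 : span K (m '' {u | u < t}) < span K (m '' {u | u < t + 1}) := by
          refine lt_of_le_of_ne hle ?_
          intro hEq
          have h3 : m t ∉ span K (m '' {u | u < t}) := by
            have := (Finset.mem_filter.mp hts).2
            exact this
          apply h3
          rw [hEq]
          exact subset_span ⟨t, by show t < t + 1; omega, rfl⟩
        have h3 := finrank_lt_finrank_of_lt h2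
        rw [h1, Finset.card_insert_of_notMem (by simp)]
        omega
      · have h1 : s.filter (fun u => u < t + 1) = s.filter (fun u => u < t) := by
          ext u
          simp only [Finset.mem_filter]
          constructor
          · rintro ⟨h2, h3⟩
            rcases Nat.lt_succ_iff_lt_or_eq.mp h3 with h | h
            · exact ⟨h2, h⟩
            · subst h; exact absurd h2 hts
          · rintro ⟨h2, h3⟩
            exact ⟨h2, by omega⟩
        rw [h1]
        exact ih.trans (finrank_mono hle)
  have hsL : ∀ u ∈ s, u < L := fun u hu => Finset.mem_range.mp (Finset.mem_filter.mp hu).1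
  have hsf : s.filter (fun u => u < L) = s := Finset.filter_true_of_mem hsL
  have htop : span K (m '' (s : Set ℕ)) = ⊤ := by
    rw [eq_top_iff, ← hspan]
    refine (hA L le_rfl).trans (span_mono (Set.image_mono ?_))
    rintro u ⟨hu, _⟩
    exact hu
  have hcard : s.card = n := by
    apply le_antisymm
    · have := hB L
      rw [hsf, hspan, finrank_top, hn] at this
      exact this
    · have h1 : finrank K (span K (m '' (s : Set ℕ))) ≤ s.card := by
        have h2 : (m '' (s : Set ℕ)) = ((s.image m : Finset E) : Set E) := by simp
        rw [h2]
        exact (finrank_span_finset_le_card _).trans Finset.card_image_le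
      rw [htop, finrank_top, hn] at h1
      exact h1
  set J := s.orderEmbOfFin hcard with hJ
  have hrange : Set.range J = (s : Set ℕ) := Finset.range_orderEmbOfFin s hcard
  have hJs : ∀ k, J k ∈ s := fun k => Finset.orderEmbOfFin_mem s hcard k
  refine ⟨J, J.strictMono, fun k => hsL _ (hJs k), ?_, ?_⟩
  · apply linearIndependent_of_top_le_span_of_card_eq_finrank
    · rw [Set.range_comp, hrange, htop]
    · rw [hn, Fintype.card_fin]
  · intro t
    have himg : J '' {k | J k < t} = {u | u ∈ s ∧ u < t} := by
      ext u
      constructor
      · rintro ⟨k, hk, rfl⟩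
        exact ⟨hJs k, hk⟩
      · rintro ⟨hu, hut⟩
        have : u ∈ Set.range J := by rw [hrange]; exact hu
        obtain ⟨k, rfl⟩ := this
        exact ⟨k, hut, rfl⟩
    rw [himg]
    rcases le_or_gt t L with h | h
    · exact hA t h
    · have h2 : {u | u ∈ s ∧ u < t} = (s : Set ℕ) := by
        ext u
        constructor
        · rintro ⟨hu, _⟩; exact hu
        · intro hu; exact ⟨hu, (hsL u hu).trans h⟩
      rw [h2, htop]
      exact le_top

/-- A family which is triangular with respect to a basis of `K ^ n` has determinant the product of
the diagonal coefficients times that of the basis. -/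
theorem det_tri {n : ℕ} (a ψ : Fin n → (Fin n → K)) (c : Fin n → K) (ha : LinearIndependent K a)
    (h : ∀ k, ψ k - c k • a k ∈ span K (a '' {l | l < k})) :
    (Matrix.of ψ).det = (∏ k, c k) * (Matrix.of a).det := by
  classical
  let b : Basis (Fin n) K (Fin n → K) :=
    Basis.mk ha (ha.span_eq_top_of_card_eq_finrank' (by simp)).ge
  have hb : ∀ k, b k = a k := fun k => by
    simp [b]
  have hrep : ∀ k, ∀ r ∈ span K (a '' {l | l < k}), ∀ l, k ≤ l → b.repr r l = 0 := by
    intro k r hr
    induction hr using span_induction with
    | mem x hx =>
      obtain ⟨l', hl', rfl⟩ := hx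
      intro l hl
      have hl'' : l' < k := hl'
      rw [← hb, b.repr_self]
      exact Finsupp.single_eq_of_ne (by intro h0; subst h0; exact absurd hl (not_le.mpr hl''))
    | zero => intro l _; simp
    | add x y _ _ hx hy => intro l hl; simp [hx l hl, hy l hl]
    | smul t x _ hx => intro l hl; simp [hx l hl]
  have hψ : ∀ k l, b.repr (ψ k) l = c k * (if l = k then 1 else 0) +
      b.repr (ψ k - c k • a k) l := by
    intro k l
    have : ψ k = c k • a k + (ψ k - c k • a k) := by abel
    conv_lhs => rw [this]
    rw [map_add, map_smul, ← hb k, b.repr_self]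
    simp [Finsupp.single_apply, eq_comm]
  set T : Matrix (Fin n) (Fin n) K := Matrix.of (fun k l => b.repr (ψ k) l) with hT
  have hmul : Matrix.of ψ = T * Matrix.of a := by
    ext k P
    rw [Matrix.mul_apply]
    have h1 := congrFun (b.sum_repr (ψ k)) P
    rw [Finset.sum_apply] at h1
    simp only [Matrix.of_apply, hT]
    rw [← h1]
    refine Finset.sum_congr rfl (fun l _ => ?_)
    rw [hb]; simp
  have hlow : T.IsLowerTriangular := by
    intro k l hkl
    have hkl' : k < l := hkl
    simp only [hT, Matrix.of_apply]
    rw [hψ, if_neg hkl'.ne', hrep k _ (h k) l hkl'.le]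
    simp
  rw [hmul, Matrix.det_mul, Matrix.det_of_isLowerTriangular T hlow]
  congr 1
  refine Finset.prod_congr rfl (fun k _ => ?_)
  simp only [hT, Matrix.of_apply]
  rw [hψ, if_pos rfl, hrep k _ (h k) k le_rfl]
  simp

theorem det_ne_zero_of_li {n : ℕ} (a : Fin n → (Fin n → K)) (ha : LinearIndependent K a) :
    (Matrix.of a).det ≠ 0 := by
  have h1 : LinearIndependent K (Matrix.of a).row := ha
  have h2 := Matrix.linearIndependent_rows_iff_isUnit.mp h1
  exact ((Matrix.isUnit_iff_isUnit_det _).mp h2).ne_zero

end Pool.Agent.H.MP_0e6b5f_nt.Dom
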