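import Pool.Agent.H.MP_0e6b5f_nt.Dom.Enum

/-!
# Solving the final inequality
-/

namespace Pool.Agent.H.MP_0e6b5f_nt.Dom

open Real

/-- Constants. -/
noncomputable def cst1 (d : ℕ) : ℝ := 8 * (d - 1) * (1 + 4 * (d - 1) * (d + 3))

/-- Constants. -/
noncomputable def cst2 (d : ℕ) : ℝ := 2 + 2 * cst1 d

/-- Constants. -/
noncomputable def cst3 (d : ℕ) : ℝ := cst2 d * (4 + 4 * log (5 * cst2 d))

theorem cst1_nonneg {d : ℕ} (hd : 2 ≤ d) : 0 ≤ cst1 d := by
  have h : (2 : ℝ) ≤ d := by exact_mod_cast hd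
  have h1 : (0 : ℝ) ≤ d - 1 := by linarith
  unfold cst1
  positivity

theorem solve {C2 X n : ℝ} (hC : 1 ≤ C2) (hX : 1 ≤ X) (hn : 1 ≤ n)
    (h : √n ≤ C2 * (1 + log n) * X) :
    n ≤ (C2 * (4 + 4 * log (5 * C2))) ^ 2 * (X * (1 + log X)) ^ 2 := by
  set a := √n with ha
  set b := √a with hb
  have ha1 : 1 ≤ a := by rw [ha]; exact one_le_sqrt.mpr hn
  have hb1 : 1 ≤ b := by rw [hb]; exact one_le_sqrt.mpr ha1
  have hna : n = a ^ 2 := by rw [ha, sq_sqrt (by linarith)]
  have hab : a = b ^ 2 := by rw [hb, sq_sqrt (by linarith)]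
  have hlogn : log n = 2 * log a := by rw [hna, log_pow]; norm_num
  have hloga : log a = 2 * log b := by rw [hab, log_pow]; norm_num
  have hlogb : log b ≤ b := (log_le_sub_one_of_pos (by linarith)).trans (by linarith)
  have hlogb0 : 0 ≤ log b := log_nonneg hb1
  have hlogX0 : 0 ≤ log X := log_nonneg hX
  have hCX : 0 ≤ C2 * X := by positivity
  have h1 : a ≤ C2 * X * (1 + 4 * log b) := by
    calc a ≤ C2 * (1 + log n) * X := h
      _ = C2 * X * (1 + 4 * log b) := by rw [hlogn, hloga]; ring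
  have h2 : b ≤ 5 * C2 * X := by
    have h3 : b * b ≤ (5 * C2 * X) * b := by
      calc b * b = a := by rw [hab]; ring
        _ ≤ C2 * X * (1 + 4 * log b) := h1
        _ ≤ C2 * X * (5 * b) := mul_le_mul_of_nonneg_left (by linarith) hCX
        _ = (5 * C2 * X) * b := by ring
    exact le_of_mul_le_mul_right h3 (by linarith)
  have h3 : log b ≤ log (5 * C2) + log X := by
    rw [← log_mul (by positivity) (by positivity)]
    exact log_le_log (by linarith) h2
  have hc0 : 0 ≤ log (5 * C2) := log_nonneg (by linarith)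
  have h4 : a ≤ C2 * (4 + 4 * log (5 * C2)) * (X * (1 + log X)) := by
    calc a ≤ C2 * X * (1 + 4 * log b) := h1
      _ ≤ C2 * X * (1 + 4 * (log (5 * C2) + log X)) :=
          mul_le_mul_of_nonneg_left (by linarith) hCX
      _ ≤ C2 * X * ((4 + 4 * log (5 * C2)) * (1 + log X)) := by
          apply mul_le_mul_of_nonneg_left _ hCX
          nlinarith [mul_nonneg hc0 hlogX0]
      _ = C2 * (4 + 4 * log (5 * C2)) * (X * (1 + log X)) := by ring
  rw [hna, ← mul_pow]
  exact pow_le_pow_left₀ (by linarith) h4 2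

theorem E_lower {n E : ℕ} (hn : 1 ≤ n) (hE : ∀ q, (n - tri q) * q ≤ E) :
    (n : ℝ) / 2 * (√n - 2) ≤ E := by
  set s := Nat.sqrt n with hs
  have hs1 : 1 ≤ s := Nat.sqrt_pos.mpr hn
  have hss : s * s ≤ n := Nat.sqrt_le n
  have hlt : n < (s + 1) * (s + 1) := Nat.lt_succ_sqrt n
  have h1 := hE (s - 1)
  have h2 := two_tri (s - 1)
  rw [Nat.sub_add_cancel hs1] at h2
  have h3 : (s - 1) * s ≤ s * s := Nat.mul_le_mul_right _ (by omega)
  have h4 : 2 * tri (s - 1) ≤ n := by omega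
  have h5 : (n : ℝ) / 2 ≤ ((n - tri (s - 1) : ℕ) : ℝ) := by
    have h6 : n ≤ 2 * (n - tri (s - 1)) := by omega
    have h7 : (n : ℝ) ≤ 2 * ((n - tri (s - 1) : ℕ) : ℝ) := by exact_mod_cast h6
    linarith
  have h6 : √(n : ℝ) ≤ s + 1 := by
    rw [sqrt_le_left (by positivity)]
    have : (n : ℝ) ≤ ((s + 1) * (s + 1) : ℕ) := by exact_mod_cast hlt.le
    push_cast at this
    nlinarith
  have h7 : ((s - 1 : ℕ) : ℝ) = (s : ℝ) - 1 := by
    rw [Nat.cast_sub hs1]; norm_num
  have h8 : (0 : ℝ) ≤ (s : ℝ) - 1 := by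
    have : (1 : ℝ) ≤ s := by exact_mod_cast hs1
    linarith
  calc (n : ℝ) / 2 * (√n - 2) ≤ (n : ℝ) / 2 * ((s : ℝ) - 1) :=
        mul_le_mul_of_nonneg_left (by linarith) (by positivity)
    _ ≤ ((n - tri (s - 1) : ℕ) : ℝ) * ((s : ℝ) - 1) := mul_le_mul_of_nonneg_right h5 h8
    _ = (((n - tri (s - 1)) * (s - 1) : ℕ) : ℝ) := by push_cast [h7]; ring
    _ ≤ E := by exact_mod_cast h1

/-- The final inequality: `Z` is the product of the bounds at all places and `x` the gain. -/
theorem final_ineq {d n E D : ℕ} {R x H : ℝ} (hd : 2 ≤ d) (hn : 1 ≤ n) (hR : 1 < R)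
    (hH : 1 ≤ H) (hx : x ^ (8 * (d - 1)) ≤ (R⁻¹) ^ E) (hx0 : 0 ≤ x)
    (hE : ∀ q, (n - tri q) * q ≤ E)
    (h : 1 ≤ x * (((n.factorial : ℝ) * 2 ^ ((d + 3) * (2 * (d - 1) * (Nat.log 2 n + 1) * n))) ^ D *
      H ^ (2 * (d - 1) * (Nat.log 2 n + 1) * n))) :
    (n : ℝ) ≤ cst3 d ^ 2 * ((1 + (D + log H) / log R) *
      (1 + log (1 + (D + log H) / log R))) ^ 2 := by
  set L := Nat.log 2 n + 1 with hL
  have hd' : (2 : ℝ) ≤ d := by exact_mod_cast hd
  have hn' : (1 : ℝ) ≤ n := by exact_mod_cast hn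
  have hlogR : 0 < log R := log_pos hR
  have hlogH : 0 ≤ log H := log_nonneg hH
  have hlogn : 0 ≤ log (n : ℝ) := log_nonneg hn'
  have hfac : (0 : ℝ) < n.factorial := by exact_mod_cast Nat.factorial_pos n
  have hxpos : 0 < x := by
    rcases hx0.lt_or_eq with h0 | h0
    · exact h0
    · rw [← h0, zero_mul] at h; linarith
  -- logarithms
  have h1 : (8 * (d - 1) : ℕ) * log x ≤ - (E * log R) := by
    have h2 := log_le_log (by positivity) hx
    rw [log_pow, log_pow, log_inv] at h2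
    linarith
  have h2 : 0 ≤ log x + (D * (log (n.factorial : ℝ) +
      ((d + 3) * (2 * (d - 1) * L * n) : ℕ) * log 2) +
      (2 * (d - 1) * L * n : ℕ) * log H) := by
    have h3 := log_nonneg h
    rw [log_mul hxpos.ne' (by positivity), log_mul (by positivity) (by positivity), log_pow,
      log_pow, log_mul hfac.ne' (by positivity), log_pow] at h3
    exact h3
  have hd1 : ((d - 1 : ℕ) : ℝ) = (d : ℝ) - 1 := by rw [Nat.cast_sub (by omega)]; norm_num
  have hLle : (L : ℝ) ≤ 2 * (1 + log n) := by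
    have h3 : ((Nat.log 2 n : ℕ) : ℝ) ≤ log n / log 2 := by
      rw [le_div_iff₀ (log_pos (by norm_num)), ← log_pow]
      apply log_le_log (by positivity)
      exact_mod_cast Nat.pow_log_le_self 2 (by omega)
    have h4 : log (n : ℝ) / log 2 ≤ 2 * log n := by
      rw [div_le_iff₀ (log_pos (by norm_num))]
      have := log_two_gt_d9
      nlinarith
    rw [hL]
    push_cast
    linarith
  have hL0 : (0 : ℝ) ≤ L := by positivity
  have hfacle : log (n.factorial : ℝ) ≤ n * log n := by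
    rw [← log_pow]
    apply log_le_log hfac
    exact_mod_cast Nat.factorial_le_pow n
  have hlog2 : log 2 ≤ 1 := by have := log_two_lt_d9; linarith
  have hlog20 : 0 ≤ log 2 := log_nonneg (by norm_num)
  have hD0 : (0 : ℝ) ≤ D := by positivity
  have hbound : (E : ℝ) * log R ≤ cst1 d * (n * (1 + log n) * (D + log H)) := by
    have h8 : (0 : ℝ) ≤ 8 * ((d : ℝ) - 1) := by linarith
    have h3 : (E : ℝ) * log R ≤ 8 * ((d : ℝ) - 1) * (D * (log (n.factorial : ℝ) +
        ((d + 3) * (2 * (d - 1) * L * n) : ℕ) * log 2) +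
        (2 * (d - 1) * L * n : ℕ) * log H) := by
      have h4 : ((8 * (d - 1) : ℕ) : ℝ) = 8 * ((d : ℝ) - 1) := by push_cast [hd1]; ring
      rw [h4] at h1
      have h5 := mul_nonneg h8 h2
      rw [mul_add] at h5
      linarith
    refine h3.trans ?_
    unfold cst1
    have h4 : ((2 * (d - 1) * L * n : ℕ) : ℝ) = 2 * ((d : ℝ) - 1) * L * n := by
      push_cast [hd1]; ring
    have h5 : (((d + 3) * (2 * (d - 1) * L * n) : ℕ) : ℝ) =
        ((d : ℝ) + 3) * (2 * ((d : ℝ) - 1) * L * n) := by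
      push_cast [hd1]; ring
    rw [h4, h5]
    have h6 : (D : ℝ) * (log (n.factorial : ℝ) +
        ((d : ℝ) + 3) * (2 * ((d : ℝ) - 1) * L * n) * log 2) +
        2 * ((d : ℝ) - 1) * L * n * log H ≤
        (1 + 4 * ((d : ℝ) - 1) * (d + 3)) * (n * (1 + log n) * (D + log H)) := by
      have hdm : (0 : ℝ) ≤ (d : ℝ) - 1 := by linarith
      have e1 : (D : ℝ) * log (n.factorial : ℝ) ≤ D * (n * (1 + log n)) := by
        apply mul_le_mul_of_nonneg_left _ hD0
        nlinarith
      have e2 : ((d : ℝ) + 3) * (2 * ((d : ℝ) - 1) * L * n) * log 2 ≤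
          4 * ((d : ℝ) - 1) * (d + 3) * (n * (1 + log n)) := by
        have e3 : ((d : ℝ) + 3) * (2 * ((d : ℝ) - 1) * L * n) * log 2 ≤
            ((d : ℝ) + 3) * (2 * ((d : ℝ) - 1) * L * n) * 1 :=
          mul_le_mul_of_nonneg_left hlog2 (by positivity)
        have e4 : ((d : ℝ) + 3) * (2 * ((d : ℝ) - 1) * L * n) ≤
            ((d : ℝ) + 3) * (2 * ((d : ℝ) - 1) * (2 * (1 + log n)) * n) := by gcongr
        calc _ ≤ _ := e3
          _ ≤ ((d : ℝ) + 3) * (2 * ((d : ℝ) - 1) * (2 * (1 + log n)) * n) := by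
              rw [mul_one]; exact e4
          _ = _ := by ring
      have e5 : 2 * ((d : ℝ) - 1) * L * n * log H ≤
          4 * ((d : ℝ) - 1) * (d + 3) * (n * (1 + log n)) * log H := by
        apply mul_le_mul_of_nonneg_right _ hlogH
        have e6 : 2 * ((d : ℝ) - 1) * L * n ≤ 2 * ((d : ℝ) - 1) * (2 * (1 + log n)) * n := by
          gcongr
        have e7 : 2 * ((d : ℝ) - 1) * (2 * (1 + log n)) * n ≤
            4 * ((d : ℝ) - 1) * (d + 3) * (n * (1 + log n)) := by
          have e8 : 0 ≤ 4 * ((d : ℝ) - 1) * (n * (1 + log n)) := by positivity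
          nlinarith
        exact e6.trans e7
      have e9 : 0 ≤ (n : ℝ) * (1 + log n) * log H := by positivity
      have e10 : (D : ℝ) * (((d : ℝ) + 3) * (2 * ((d : ℝ) - 1) * L * n) * log 2) ≤
          D * (4 * ((d : ℝ) - 1) * (d + 3) * (n * (1 + log n))) :=
        mul_le_mul_of_nonneg_left e2 hD0
      calc _ = (D : ℝ) * log (n.factorial : ℝ) +
            (D : ℝ) * (((d : ℝ) + 3) * (2 * ((d : ℝ) - 1) * L * n) * log 2) +
            2 * ((d : ℝ) - 1) * L * n * log H := by ring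
        _ ≤ D * (n * (1 + log n)) + D * (4 * ((d : ℝ) - 1) * (d + 3) * (n * (1 + log n))) +
            4 * ((d : ℝ) - 1) * (d + 3) * (n * (1 + log n)) * log H + n * (1 + log n) * log H :=
            (add_le_add (add_le_add e1 e10) (le_add_of_le_of_nonneg e5 e9)).trans
              (le_of_eq (by ring))
        _ = _ := by ring
    calc _ ≤ 8 * ((d : ℝ) - 1) *
          ((1 + 4 * ((d : ℝ) - 1) * (d + 3)) * (n * (1 + log n) * (D + log H))) :=
          mul_le_mul_of_nonneg_left h6 h8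
      _ = _ := by ring
  have hEl := E_lower hn hE
  set X := 1 + (D + log H) / log R with hX
  have hX1 : 1 ≤ X := by
    rw [hX]
    have : 0 ≤ (D + log H) / log R := by positivity
    linarith
  have hc1 := cst1_nonneg hd
  have hsq : √(n : ℝ) ≤ cst2 d * (1 + log n) * X := by
    have h3 : (n : ℝ) / 2 * (√n - 2) * log R ≤ cst1 d * (n * (1 + log n) * (D + log H)) :=
      (mul_le_mul_of_nonneg_right hEl hlogR.le).trans hbound
    have h4 : (√(n : ℝ) - 2) * log R ≤ 2 * cst1 d * (1 + log n) * (D + log H) := by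
      have hn0 : (0 : ℝ) < n := by linarith
      have h5 : (n : ℝ) * ((√n - 2) * log R) ≤
          n * (2 * cst1 d * (1 + log n) * (D + log H)) := by
        calc (n : ℝ) * ((√n - 2) * log R) = 2 * ((n : ℝ) / 2 * (√n - 2) * log R) := by ring
          _ ≤ 2 * (cst1 d * (n * (1 + log n) * (D + log H))) := by linarith
          _ = _ := by ring
      exact le_of_mul_le_mul_left h5 hn0
    have h6 : √(n : ℝ) - 2 ≤ 2 * cst1 d * (1 + log n) * ((D + log H) / log R) := by
      rw [mul_div_assoc', le_div_iff₀ hlogR]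
      exact h4
    have h7 : (D + log H) / log R ≤ X := by rw [hX]; linarith
    have h8 : 2 * cst1 d * (1 + log n) * ((D + log H) / log R) ≤
        2 * cst1 d * (1 + log n) * X := mul_le_mul_of_nonneg_left h7 (by positivity)
    have h9 : 1 ≤ (1 + log (n : ℝ)) * X :=
      one_le_mul_of_one_le_of_one_le (le_add_of_nonneg_right hlogn) hX1
    calc √(n : ℝ) ≤ 2 + 2 * cst1 d * (1 + log n) * X := by linarith
      _ ≤ 2 * ((1 + log (n : ℝ)) * X) + 2 * cst1 d * (1 + log n) * X := by linarith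
      _ = cst2 d * (1 + log n) * X := by unfold cst2; ring
  have := solve (C2 := cst2 d) (by unfold cst2; linarith) hX1 hn' hsq
  exact this

end Pool.Agent.H.MP_0e6b5f_nt.Dom
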