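import Pool.Agent.H.MP_0e6b5f_nt.Dom.Glob
import Pool.Agent.H.MP_0e6b5f_nt.Dom.Cover
import Pool.Agent.H.MP_0e6b5f_nt.Dom.Num

/-!
# The bound for finite invariant sets
-/

namespace Pool.Agent.H.MP_0e6b5f_nt.Dom

open Height Height.AdmissibleAbsValues Function Real

/-- The final constant. -/
noncomputable def cst4 (d : ℕ) : ℝ := ((d * (d - 1)) ^ 4 * (d - 1) ^ 2 : ℕ) * cst3 d ^ 2

variable {K : Type*} [Field K] [AdmissibleAbsValues K]

/-- The bound for a finite invariant set (in normal form, with `0` a fixed point). -/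
theorem orb_card_le {d : ℕ} {ζ : Fin d → K} {i₀ : Fin d} (hi₀ : ζ i₀ = 0) {δ : K}
    (hδ : δ ≠ 0) {ι : Type*} [Fintype ι]
    (O : Orb ζ δ ι) (hinj : ∀ P Q, O.y P = O.y Q → O.y (O.σ⁻¹ P) = O.y (O.σ⁻¹ Q) → P = Q)
    (w : AbsoluteValue K ℝ)
    (hw : w ∈ nonarchAbsVal (K := K) ∨ w ∈ archAbsVal (K := K)) {A R e : ℝ}
    (hbad : Bad ζ δ w A R e) (hinv : (w δ)⁻¹ ≤ e) :
    (Fintype.card ι : ℝ) ≤ cst4 d *
      ((1 + (totalWeight K + log (mulHeight (tup ζ) * mulHeight₁ δ)) / log R) *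
      (1 + log (1 + (totalWeight K + log (mulHeight (tup ζ) * mulHeight₁ δ)) / log R))) ^ 2 := by
  classical
  have hd := hbad.hd
  have hA := hbad.hA
  have hR := hbad.hR
  have he := hbad.he
  rcases isEmpty_or_nonempty ι with hι | hι
  · rw [Fintype.card_eq_zero, Nat.cast_zero]
    unfold cst4
    positivity
  obtain ⟨T, hTne, hcard, hclose⟩ := hbad.cover O
  set Γ := A ^ (5 * d + 10) * e ^ 2 / R with hΓ
  have hΓ0 : 0 ≤ Γ := by positivity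
  have hd1 : d - 1 ≠ 0 := by omega
  set ρ := Γ ^ (((d - 1 : ℕ) : ℝ)⁻¹) with hρ
  have hρ0 : 0 ≤ ρ := by positivity
  have hρpow : ρ ^ (d - 1) = Γ := by
    rw [hρ]
    exact Real.rpow_inv_natCast_pow hΓ0 hd1
  have hle : ∀ x : ℝ, 0 ≤ x → x ^ (d - 1) ≤ Γ → x ≤ ρ := by
    intro x hx h
    rw [← hρpow] at h
    exact (pow_le_pow_iff_left₀ hx hρ0 hd1).mp h
  have hn : 1 ≤ T.card := Finset.card_pos.mpr hTne
  have hL : T.card ≤ d ^ (Nat.log 2 T.card + 1) := by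
    have h1 : T.card < 2 ^ (Nat.log 2 T.card + 1) := Nat.lt_pow_succ_log_self (by norm_num) _
    exact h1.le.trans (Nat.pow_le_pow_left hd _)
  obtain ⟨E, E', hEE, hE, hfund⟩ := fundamental hd hi₀ hδ O hinj T (Nat.log 2 T.card + 1) hL w hw
    hρ0 (fun P hP Q hQ => ⟨hle _ (w.nonneg _) (hclose P hP Q hQ).1,
      hle _ (w.nonneg _) (hclose P hP Q hQ).2⟩)
  have hH : 1 ≤ mulHeight (tup ζ) * mulHeight₁ δ :=
    one_le_mul_of_one_le_of_one_le (one_le_mulHeight _) (one_le_mulHeight₁ _)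
  have hwδ : 0 < w δ := w.pos hδ
  set x := ρ ^ E * (w δ ^ E')⁻¹ with hx
  have hx0 : 0 ≤ x := by positivity
  have hΓe : (Γ * e) ^ 8 ≤ R⁻¹ := by
    have h1 : (Γ * e) ^ 8 = A ^ (8 * (5 * d + 10)) * (e ^ 4) ^ 6 / R ^ 8 := by
      rw [hΓ]
      rw [div_mul_eq_mul_div, div_pow, mul_pow, mul_pow, ← pow_mul, ← pow_mul, ← pow_mul,
        mul_comm (5 * d + 10) 8]
      ring
    rw [h1]
    have h2 : A ^ (8 * (5 * d + 10)) ≤ R := by
      have : 8 * (5 * d + 10) = 40 * d + 80 := by ring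
      rw [this]; exact hbad.hAR
    have h3 : (e ^ 4) ^ 6 ≤ R ^ 6 := pow_le_pow_left₀ (by positivity) hbad.heR 6
    rw [div_le_iff₀ (by positivity)]
    calc A ^ (8 * (5 * d + 10)) * (e ^ 4) ^ 6 ≤ R * R ^ 6 :=
          mul_le_mul h2 h3 (by positivity) (by linarith)
      _ = R⁻¹ * R ^ 8 := by field_simp
  have hxpow : x ^ (8 * (d - 1)) ≤ (R⁻¹) ^ E := by
    have h1 : x ^ (8 * (d - 1)) = Γ ^ (8 * E) * (((w δ)⁻¹) ^ ((d - 1) * E')) ^ 8 := by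
      rw [hx, mul_pow, ← pow_mul, ← inv_pow, ← pow_mul, ← pow_mul, ← hρpow, ← pow_mul]
      congr 2 <;> ring
    have h2 : ((w δ)⁻¹) ^ ((d - 1) * E') ≤ e ^ E := by
      calc ((w δ)⁻¹) ^ ((d - 1) * E') ≤ e ^ ((d - 1) * E') :=
            pow_le_pow_left₀ (by positivity) hinv _
        _ ≤ e ^ E := pow_le_pow_right₀ he hEE
    calc x ^ (8 * (d - 1)) = Γ ^ (8 * E) * (((w δ)⁻¹) ^ ((d - 1) * E')) ^ 8 := h1
      _ ≤ Γ ^ (8 * E) * (e ^ E) ^ 8 :=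
          mul_le_mul_of_nonneg_left (pow_le_pow_left₀ (by positivity) h2 8) (by positivity)
      _ = ((Γ * e) ^ 8) ^ E := by
          rw [← pow_mul, ← pow_mul, mul_pow, mul_comm E 8]
      _ ≤ (R⁻¹) ^ E := pow_le_pow_left₀ (by positivity) hΓe E
  have hfin := final_ineq (D := totalWeight K) hd hn hR hH hxpow hx0 hE hfund
  calc (Fintype.card ι : ℝ) ≤ (((d * (d - 1)) ^ 4 * (d - 1) ^ 2 * T.card : ℕ) : ℝ) := by
        exact_mod_cast hcard
    _ = ((d * (d - 1)) ^ 4 * (d - 1) ^ 2 : ℕ) * (T.card : ℝ) := by push_cast; ring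
    _ ≤ ((d * (d - 1)) ^ 4 * (d - 1) ^ 2 : ℕ) * _ :=
        mul_le_mul_of_nonneg_left hfin (by positivity)
    _ = _ := by unfold cst4; ring

end Pool.Agent.H.MP_0e6b5f_nt.Dom
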